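import Mathlib
import Pool.Agent.Lib.MP_14ee70_nt.TY.Defs

/-!
# Project TY, file V/Four: the Hölder step for collision counts, by characters of `(ZMod q) ^ K`

Proof of `coll_pi_le`: reduce modulo a large `q` to functions with values in the finite group
`G = Fin K → ZMod q` (`coll_map`), where `card G * coll T f = ∑ ψ, ‖∑_{x ∈ T} ψ (f x)‖ ^ 2` over the characters
`ψ` of `G` (`card_mul_coll`), factor the exponential sum and use the inequality of the means.
-/

namespace MP14ee70.TY.V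

open Finset

/-- The collision number does not change under a map which is injective on the values. -/
theorem coll_map {X V W : Type*} [DecidableEq V] [DecidableEq W] (T : Finset X) (f : X → V) (p : V → W)
    (hp : ∀ x ∈ T, ∀ y ∈ T, p (f x) = p (f y) → f x = f y) :
    coll T (fun x => p (f x)) = coll T f := by
  unfold coll
  congr 1
  refine Finset.filter_congr ?_
  intro z hz
  rw [Finset.mem_product] at hz
  exact ⟨fun h => hp _ hz.1 _ hz.2 h, fun h => congrArg p h⟩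

/-- The collision number by characters. -/
theorem card_mul_coll {X G : Type*} [AddCommGroup G] [Fintype G] [DecidableEq G] (T : Finset X) (f : X → G) :
    ((Fintype.card G : ℝ) * coll T f : ℝ) = ∑ ψ : AddChar G ℂ, ‖∑ x ∈ T, ψ (f x)‖ ^ 2 := by
  have h1 : ((Fintype.card G : ℂ) * coll T f : ℂ)
      = ∑ z ∈ T ×ˢ T, ∑ ψ : AddChar G ℂ, ψ (f z.1 - f z.2) := by
    have h2 : ∀ z ∈ T ×ˢ T, ∑ ψ : AddChar G ℂ, ψ (f z.1 - f z.2)
        = if f z.1 = f z.2 then (Fintype.card G : ℂ) else 0 := by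
      intro z _
      rw [AddChar.sum_apply_eq_ite]
      simp only [sub_eq_zero]
    rw [Finset.sum_congr rfl h2, ← Finset.sum_filter, Finset.sum_const, nsmul_eq_mul, coll, mul_comm]
  have h3 : ∀ ψ : AddChar G ℂ, ((‖∑ x ∈ T, ψ (f x)‖ ^ 2 : ℝ) : ℂ)
      = ∑ z ∈ T ×ˢ T, ψ (f z.1 - f z.2) := by
    intro ψ
    rw [Complex.ofReal_pow, ← Complex.mul_conj', Finset.sum_product, map_sum, Finset.sum_mul_sum]
    refine Finset.sum_congr rfl fun x _ => Finset.sum_congr rfl fun y _ => ?_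
    rw [sub_eq_add_neg, AddChar.map_add_eq_mul, AddChar.map_neg_eq_conj]
  have h4 : (((Fintype.card G : ℝ) * coll T f : ℝ) : ℂ)
      = ((∑ ψ : AddChar G ℂ, ‖∑ x ∈ T, ψ (f x)‖ ^ 2 : ℝ) : ℂ) := by
    rw [Complex.ofReal_sum, Finset.sum_congr rfl fun ψ _ => h3 ψ, Finset.sum_comm]
    push_cast
    exact h1
  exact Complex.ofReal_injective h4

/-- The inequality of the means. -/
theorem prod_le_sum_pow (m : ℕ) (x : Fin m → ℝ) (hx : ∀ i, 0 ≤ x i) :
    (m : ℝ) * ∏ i, x i ≤ ∑ i, x i ^ m := by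
  rcases Nat.eq_zero_or_pos m with rfl | hm
  · simp
  · have hm' : (0 : ℝ) < m := by exact_mod_cast hm
    have h := Real.geom_mean_le_arith_mean_weighted (Finset.univ : Finset (Fin m))
      (fun _ => 1 / (m : ℝ)) (fun i => x i ^ m) (fun i _ => by positivity)
      (by rw [Finset.sum_const, Finset.card_univ, Fintype.card_fin, nsmul_eq_mul]; field_simp)
      (fun i _ => pow_nonneg (hx i) m)
    have h2 : ∀ i ∈ (Finset.univ : Finset (Fin m)), (x i ^ m) ^ (1 / (m : ℝ)) = x i := by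
      intro i _
      rw [one_div, Real.pow_rpow_inv_natCast (hx i) hm.ne']
    rw [Finset.prod_congr rfl h2, ← Finset.mul_sum] at h
    calc (m : ℝ) * ∏ i, x i ≤ m * (1 / (m : ℝ) * ∑ i, x i ^ m) :=
          mul_le_mul_of_nonneg_left h hm'.le
      _ = ∑ i, x i ^ m := by field_simp

/-- Characters and finite sums. -/
theorem char_sum {G ι : Type*} [AddCommGroup G] (ψ : AddChar G ℂ) (s : Finset ι) (f : ι → G) :
    ψ (∑ i ∈ s, f i) = ∏ i ∈ s, ψ (f i) := by
  classical
  induction s using Finset.induction_on with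
  | empty => simp
  | insert a s ha ih => rw [Finset.sum_insert ha, Finset.prod_insert ha, AddChar.map_add_eq_mul, ih]

/-- The exponential sum of a product set. -/
theorem sum_char_prod {X Y G : Type*} [AddCommGroup G] {m : ℕ} (T0 : Finset X) (f0 : X → G)
    (B : Fin m → Finset Y) (g : Y → G) (ψ : AddChar G ℂ) :
    ∑ z ∈ T0 ×ˢ Fintype.piFinset B, ψ (f0 z.1 + ∑ i, g (z.2 i))
      = (∑ x ∈ T0, ψ (f0 x)) * ∏ i, ∑ b ∈ B i, ψ (g b) := by
  rw [Finset.prod_univ_sum, Finset.sum_product, Finset.sum_mul_sum]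
  refine Finset.sum_congr rfl fun x _ => Finset.sum_congr rfl fun y _ => ?_
  rw [AddChar.map_add_eq_mul, char_sum]

/-- The Hölder step for functions with values in a finite group. -/
theorem coll_pi_le_group {X Y G : Type*} [AddCommGroup G] [Fintype G] [DecidableEq G] (m : ℕ)
    (T0 : Finset X) (f0 : X → G) (B : Fin m → Finset Y) (g : Y → G) :
    m * coll (T0 ×ˢ Fintype.piFinset B) (fun z => f0 z.1 + ∑ i, g (z.2 i))
      ≤ ∑ i, coll (T0 ×ˢ Fintype.piFinset (fun _ : Fin m => B i))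
          (fun z => f0 z.1 + ∑ i, g (z.2 i)) := by
  have hG : (0 : ℝ) < Fintype.card G := by exact_mod_cast Fintype.card_pos
  have key : (m : ℝ) * coll (T0 ×ˢ Fintype.piFinset B) (fun z => f0 z.1 + ∑ i, g (z.2 i))
      ≤ ∑ i, (coll (T0 ×ˢ Fintype.piFinset (fun _ : Fin m => B i))
          (fun z => f0 z.1 + ∑ i, g (z.2 i)) : ℝ) := by
    refine le_of_mul_le_mul_left ?_ hG
    rw [Finset.mul_sum, ← mul_assoc, mul_comm (Fintype.card G : ℝ) (m : ℝ), mul_assoc, card_mul_coll]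
    simp_rw [card_mul_coll, sum_char_prod, norm_mul, norm_prod, mul_pow]
    rw [Finset.sum_comm, Finset.mul_sum]
    refine Finset.sum_le_sum fun ψ _ => ?_
    rw [← Finset.mul_sum]
    have h := prod_le_sum_pow m (fun i => ‖∑ b ∈ B i, ψ (g b)‖ ^ 2) (fun i => by positivity)
    have h0 : (0 : ℝ) ≤ ‖∑ x ∈ T0, ψ (f0 x)‖ ^ 2 := by positivity
    calc (m : ℝ) * (‖∑ x ∈ T0, ψ (f0 x)‖ ^ 2 * (∏ i, ‖∑ b ∈ B i, ψ (g b)‖) ^ 2)
        = ‖∑ x ∈ T0, ψ (f0 x)‖ ^ 2 * (m * ∏ i, ‖∑ b ∈ B i, ψ (g b)‖ ^ 2) := by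
          rw [← Finset.prod_pow]; ring
      _ ≤ ‖∑ x ∈ T0, ψ (f0 x)‖ ^ 2 * ∑ i, (‖∑ b ∈ B i, ψ (g b)‖ ^ 2) ^ m :=
          mul_le_mul_of_nonneg_left h h0
      _ = ‖∑ x ∈ T0, ψ (f0 x)‖ ^ 2 * ∑ i, (∏ _i : Fin m, ‖∑ b ∈ B i, ψ (g b)‖) ^ 2 := by
          congr 1
          refine Finset.sum_congr rfl fun i _ => ?_
          rw [Finset.prod_const, Finset.card_univ, Fintype.card_fin, ← pow_mul, ← pow_mul, mul_comm]
  exact_mod_cast key

/-- A modulus which separates finitely many vectors from `0`. -/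
theorem exists_modulus (K : ℕ) (S : Finset (Fin K → ℤ)) :
    ∃ q : ℕ, 0 < q ∧ ∀ v ∈ S, (∀ j, ((v j : ℤ) : ZMod q) = 0) → v = 0 := by
  refine ⟨1 + ∑ v ∈ S, ∑ j, (v j).natAbs, by omega, fun v hv h => ?_⟩
  funext j
  have h1 := (ZMod.intCast_zmod_eq_zero_iff_dvd (v j) _).1 (h j)
  have h2 : (v j).natAbs ≤ ∑ v ∈ S, ∑ j, (v j).natAbs :=
    (Finset.single_le_sum (f := fun j => (v j).natAbs) (fun _ _ => Nat.zero_le _) (Finset.mem_univ j)).trans
      (Finset.single_le_sum (f := fun v : Fin K → ℤ => ∑ j, (v j).natAbs) (fun _ _ => Nat.zero_le _) hv)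
  by_contra h3
  have h4 := Int.natAbs_dvd_natAbs.2 h1
  have h5 := Nat.le_of_dvd (Int.natAbs_pos.2 h3) h4
  rw [Int.natAbs_natCast] at h5
  omega

/-- Hölder: the collision number of a product of different sets `B i` is at most the mean over `i` of the
collision numbers of the products `(B i) ^ m`. -/
theorem coll_pi_le {X Y : Type*} (K m : ℕ) (T0 : Finset X) (f0 : X → Fin K → ℤ) (B : Fin m → Finset Y)
    (g : Y → Fin K → ℤ) :
    m * coll (T0 ×ˢ Fintype.piFinset B) (fun z => f0 z.1 + ∑ i, g (z.2 i))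
      ≤ ∑ i, coll (T0 ×ˢ Fintype.piFinset (fun _ : Fin m => B i))
          (fun z => f0 z.1 + ∑ i, g (z.2 i)) := by
  classical
  set f : X × (Fin m → Y) → Fin K → ℤ := fun z => f0 z.1 + ∑ i, g (z.2 i) with hf
  set U : Finset Y := Finset.univ.biUnion B with hU
  set A : Finset (Fin K → ℤ) := (T0 ×ˢ Fintype.piFinset (fun _ : Fin m => U)).image f with hA
  obtain ⟨q, hq, hsep⟩ := exists_modulus K ((A ×ˢ A).image fun p => p.1 - p.2)
  have : NeZero q := ⟨hq.ne'⟩
  set p : (Fin K → ℤ) → (Fin K → ZMod q) := fun v j => ((v j : ℤ) : ZMod q) with hp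
  have hpf : ∀ z, p (f z) = p (f0 z.1) + ∑ i, p (g (z.2 i)) := by
    intro z
    funext j
    simp [hp, hf, Finset.sum_apply]
  have hinj : ∀ C : Fin m → Finset Y, (∀ i, C i ⊆ U) →
      coll (T0 ×ˢ Fintype.piFinset C) (fun z => p (f0 z.1) + ∑ i, p (g (z.2 i)))
        = coll (T0 ×ˢ Fintype.piFinset C) f := by
    intro C hC
    have h := coll_map (T0 ×ˢ Fintype.piFinset C) f p ?_
    · rw [← h]
      congr 1
      funext z
      exact (hpf z).symm
    · intro x hx y hy hxy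
      have hmem : ∀ z ∈ T0 ×ˢ Fintype.piFinset C, f z ∈ A := by
        intro z hz
        rw [Finset.mem_product, Fintype.mem_piFinset] at hz
        refine Finset.mem_image_of_mem _ (Finset.mem_product.2 ⟨hz.1, ?_⟩)
        exact Fintype.mem_piFinset.2 fun i => hC i (hz.2 i)
      have h1 := hsep (f x - f y) (Finset.mem_image.2 ⟨(f x, f y),
        Finset.mem_product.2 ⟨hmem x hx, hmem y hy⟩, rfl⟩) ?_
      · exact sub_eq_zero.1 h1
      · intro j
        have h2 := congrFun hxy j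
        simp only [hp] at h2
        rw [Pi.sub_apply, Int.cast_sub, h2, sub_self]
  have hBU : ∀ i, B i ⊆ U := fun i => Finset.subset_biUnion_of_mem B (Finset.mem_univ i)
  have h := coll_pi_le_group m T0 (fun x => p (f0 x)) B (fun y => p (g y))
  rw [hinj B hBU] at h
  refine h.trans (le_of_eq (Finset.sum_congr rfl fun i _ => hinj (fun _ => B i) fun _ => hBU i))

end MP14ee70.TY.V
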