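import Mathlib
import Pool.Agent.Lib.MP_14ee70_nt.TY.Defs

/-!
# Project TY, file V/Linnik: Linnik's lemma

(1) `card_fixed_le`: in the ring `R = ZMod (p ^ K)`, `K < p`, the power sums `∑ x_i^j` (`1 ≤ j ≤ K`) determine the
elementary symmetric functions (Newton: `MvPolynomial.mul_esymm_eq_sum`, `k * esymm k = ± ∑ ...`, evaluated at `x`, and
`1, …, K` are units of `R`, being prime to `p`), hence the polynomial `∏_i (T - x_i)`
(`Multiset.prod_X_sub_X_eq_sum_esymm`, `MvPolynomial.prod_X_add_C_coeff`..).  If `x` is one solution with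
`x_i - x_l` units for `i ≠ l` and `z` another one, then `∏_l (z_i - x_l) = 0` in `R` for each `i`.
Not all the factors are units, so `z_i - x_l` is not a unit for some `l = σ i`; for `l' ≠ l` the factor
`z_i - x_{l'} = (z_i - x_l) + (x_l - x_{l'})` is then a unit (nonunits of the local ring `ZMod (p^K)` form an
ideal: they are the multiples of `p`, `ZMod.isUnit_iff_coprime`/`IsLocalRing`), so `z_i = x_l`.
`σ` is injective since the `z_i` are different.  So `z = x ∘ σ` with `σ` a permutation: at most `K!` solutions.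
For `K = 0` the statement is `1 ≤ 1`.

(2) `linnik`: the values `μ_j = ∑ x_i^j ∈ R` with `p^j ∣ μ_j - λ_j` number at most `∏_j p^(K - j) = p^(K(K-1)/2)`.
-/

namespace MP14ee70.TY.V

open Finset

/-! ### auxiliary -/

/-- power sums determine the elementary symmetric functions -/
theorem linnik_esymm {R : Type*} [CommRing R] (K : ℕ) (hu : ∀ k : ℕ, 0 < k → k ≤ K → IsUnit (k : R))
    (x z : Fin K → R) (h : ∀ j : Fin K, ∑ i, x i ^ (j.val + 1) = ∑ i, z i ^ (j.val + 1)) :
    ∀ k : ℕ, k ≤ K → MvPolynomial.aeval x (MvPolynomial.esymm (Fin K) ℤ k) =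
      MvPolynomial.aeval z (MvPolynomial.esymm (Fin K) ℤ k) := by
  have hp : ∀ j : ℕ, 0 < j → j ≤ K → MvPolynomial.aeval x (MvPolynomial.psum (Fin K) ℤ j) =
      MvPolynomial.aeval z (MvPolynomial.psum (Fin K) ℤ j) := by
    intro j hj hjK
    have := h ⟨j - 1, by omega⟩
    simp only [Nat.sub_add_cancel hj] at this
    simpa [MvPolynomial.psum] using this
  intro k
  induction k using Nat.strong_induction_on with
  | _ k ih =>
    intro hk
    rcases Nat.eq_zero_or_pos k with rfl | hk0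
    · simp
    have hx := congrArg (MvPolynomial.aeval x) (MvPolynomial.mul_esymm_eq_sum (Fin K) ℤ k)
    have hz := congrArg (MvPolynomial.aeval z) (MvPolynomial.mul_esymm_eq_sum (Fin K) ℤ k)
    simp only [map_mul, map_natCast, map_pow, map_neg, map_one, map_sum] at hx hz
    refine (hu k hk0 hk).mul_left_cancel ?_
    rw [hx, hz]
    congr 1
    refine Finset.sum_congr rfl fun a ha => ?_
    have ha1 := (Finset.mem_filter.1 ha).2
    have ha2 := Finset.HasAntidiagonal.mem_antidiagonal.1 (Finset.mem_filter.1 ha).1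
    rw [ih a.1 ha1 (by omega), hp a.2 (by omega) (by omega)]

/-- power sums determine the polynomial -/
theorem linnik_prod {R : Type*} [CommRing R] (K : ℕ) (hu : ∀ k : ℕ, 0 < k → k ≤ K → IsUnit (k : R))
    (x z : Fin K → R) (h : ∀ j : Fin K, ∑ i, x i ^ (j.val + 1) = ∑ i, z i ^ (j.val + 1)) (t : R) :
    ∏ i, (t - x i) = ∏ i, (t - z i) := by
  have key : ∀ y : Fin K → R, ∏ i, (t - y i) = ∑ j ∈ Finset.range (K + 1),
      (-1) ^ j * (MvPolynomial.aeval y (MvPolynomial.esymm (Fin K) ℤ j) * t ^ (K - j)) := by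
    intro y
    have h1 := congrArg (Polynomial.eval t)
      (Multiset.prod_X_sub_X_eq_sum_esymm ((Finset.univ : Finset (Fin K)).val.map y))
    rw [Multiset.map_map, Polynomial.eval_finsetSum] at h1
    have h2 : Polynomial.eval t (Multiset.map ((fun t => Polynomial.X - Polynomial.C t) ∘ y)
        (Finset.univ : Finset (Fin K)).val).prod = ∏ i, (t - y i) := by
      change Polynomial.eval t (∏ i, (Polynomial.X - Polynomial.C (y i))) = _
      rw [Polynomial.eval_prod]
      simp
    rw [h2] at h1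
    rw [h1]
    simp only [Multiset.card_map, Finset.card_val, Finset.card_univ, Fintype.card_fin]
    refine Finset.sum_congr rfl fun j _ => ?_
    rw [MvPolynomial.aeval_esymm_eq_multiset_esymm]
    simp
  rw [key x, key z]
  refine Finset.sum_congr rfl fun j hj => ?_
  rw [linnik_esymm K hu x z h j (by have := Finset.mem_range.1 hj; omega)]

/-- two solutions differ by a permutation -/
theorem linnik_perm {R F : Type*} [CommRing R] [Field F] (φ : R →+* F)
    (hφ : ∀ a : R, φ a ≠ 0 → IsUnit a) (K : ℕ) (hu : ∀ k : ℕ, 0 < k → k ≤ K → IsUnit (k : R))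
    (x z : Fin K → R) (h : ∀ j : Fin K, ∑ i, x i ^ (j.val + 1) = ∑ i, z i ^ (j.val + 1))
    (hx : ∀ i j, i ≠ j → IsUnit (x i - x j)) (hz : ∀ i j, i ≠ j → IsUnit (z i - z j)) :
    ∃ σ : Equiv.Perm (Fin K), z = x ∘ σ := by
  have h1 : ∀ i, ∃ l, z i = x l := by
    intro i
    have h2 : ∏ l, (z i - x l) = 0 := by
      rw [linnik_prod K hu x z h (z i)]
      exact Finset.prod_eq_zero (Finset.mem_univ i) (sub_self _)
    have h3 : ∏ l, φ (z i - x l) = 0 := by rw [← map_prod, h2, map_zero]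
    obtain ⟨l, -, hl⟩ := Finset.prod_eq_zero_iff.1 h3
    refine ⟨l, ?_⟩
    have h4 : IsUnit (∏ l' ∈ Finset.univ.erase l, (z i - x l')) := by
      refine IsUnit.prod_iff.2 fun l' hl' => hφ _ ?_
      have hne : l' ≠ l := (Finset.mem_erase.1 hl').1
      have h5 : φ (z i - x l') = φ (x l - x l') := by
        rw [map_sub] at hl
        rw [map_sub, map_sub, sub_eq_zero.1 hl]
      rw [h5]
      exact ((hx l l' hne.symm).map φ).ne_zero
    rw [← Finset.mul_prod_erase Finset.univ _ (Finset.mem_univ l)] at h2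
    have h6 := (h4.mul_left_eq_zero).1 h2
    exact sub_eq_zero.1 h6
  choose σ hσ using h1
  have hinj : Function.Injective σ := by
    intro i j hij
    by_contra hne
    have h2 := (hz i j hne).map φ
    rw [hσ i, hσ j, hij, sub_self, map_zero] at h2
    exact h2.ne_zero rfl
  exact ⟨Equiv.ofBijective σ (Finite.injective_iff_bijective.1 hinj), funext fun i => hσ i⟩

theorem linnik_unit (p K : ℕ) (hp : p.Prime) (hK : 0 < K) (a : ZMod (p ^ K))
    (ha : ZMod.castHom (dvd_pow_self p hK.ne') (ZMod p) a ≠ 0) : IsUnit a := by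
  haveI : NeZero (p ^ K) := ⟨pow_ne_zero _ hp.ne_zero⟩
  have h1 : ((a.val : ℕ) : ZMod (p ^ K)) = a := ZMod.natCast_zmod_val a
  rw [← h1] at ha ⊢
  rw [map_natCast] at ha
  rw [ZMod.isUnit_iff_coprime]
  refine Nat.Coprime.pow_right _ ((Nat.Prime.coprime_iff_not_dvd hp).2 ?_).symm
  intro hd
  exact ha ((ZMod.natCast_eq_zero_iff _ _).2 hd)

/-- at most `K!` tuples, pairwise different mod `p`, with given power sums mod `p ^ K`. -/
theorem card_fixed_le (p K : ℕ) (hp : p.Prime) (hK : K < p) [NeZero (p ^ K)] (μ : Fin K → ZMod (p ^ K)) :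
    ((Finset.univ : Finset (Fin K → ZMod (p ^ K))).filter fun x =>
      (∀ i j, i ≠ j → IsUnit (x i - x j)) ∧ ∀ j : Fin K, ∑ i, x i ^ (j.val + 1) = μ j).card
      ≤ K.factorial := by
  classical
  haveI : Fact p.Prime := ⟨hp⟩
  rcases Nat.eq_zero_or_pos K with hK0 | hK0
  · subst hK0
    refine (Finset.card_le_univ _).trans ?_
    simp
  rcases Finset.eq_empty_or_nonempty ((Finset.univ : Finset (Fin K → ZMod (p ^ K))).filter fun x =>
      (∀ i j, i ≠ j → IsUnit (x i - x j)) ∧ ∀ j : Fin K, ∑ i, x i ^ (j.val + 1) = μ j) with he | ⟨x, hx⟩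
  · rw [he]
    simp
  obtain ⟨-, hx1, hx2⟩ := Finset.mem_filter.1 hx
  have hsub : ((Finset.univ : Finset (Fin K → ZMod (p ^ K))).filter fun x =>
      (∀ i j, i ≠ j → IsUnit (x i - x j)) ∧ ∀ j : Fin K, ∑ i, x i ^ (j.val + 1) = μ j) ⊆
      (Finset.univ : Finset (Equiv.Perm (Fin K))).image fun σ : Equiv.Perm (Fin K) => x ∘ ⇑σ := by
    intro z hz
    obtain ⟨-, hz1, hz2⟩ := Finset.mem_filter.1 hz
    obtain ⟨σ, hσ⟩ := linnik_perm (ZMod.castHom (dvd_pow_self p hK0.ne') (ZMod p))
      (linnik_unit p K hp hK0) K (fun k hk hkK => by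
        rw [ZMod.isUnit_iff_coprime]
        exact Nat.Coprime.pow_right _ ((Nat.Prime.coprime_iff_not_dvd hp).2
          (Nat.not_dvd_of_pos_of_lt hk (by omega))).symm) x z
      (fun j => (hx2 j).trans (hz2 j).symm) hx1 hz1
    exact Finset.mem_image.2 ⟨σ, Finset.mem_univ _, hσ.symm⟩
  refine (Finset.card_le_card hsub).trans (Finset.card_image_le.trans ?_)
  rw [Finset.card_univ, Fintype.card_perm, Fintype.card_fin]

/-- a residue class mod `p ^ j` has at most `p ^ (K - j)` elements -/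
theorem linnik_class (p K j : ℕ) (hp : p.Prime) (hj : j ≤ K) [NeZero (p ^ K)] (l : ZMod (p ^ K)) :
    ((Finset.univ : Finset (ZMod (p ^ K))).filter fun m =>
      ((p : ZMod (p ^ K)) ^ j) ∣ m - l).card ≤ p ^ (K - j) := by
  classical
  have hsub : ((Finset.univ : Finset (ZMod (p ^ K))).filter fun m =>
      ((p : ZMod (p ^ K)) ^ j) ∣ m - l) ⊆
      (Finset.range (p ^ (K - j))).image fun c : ℕ => l + (p : ZMod (p ^ K)) ^ j * (c : ZMod (p ^ K)) := by
    intro m hm
    obtain ⟨d, hd⟩ := (Finset.mem_filter.1 hm).2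
    refine Finset.mem_image.2 ⟨d.val % p ^ (K - j),
      Finset.mem_range.2 (Nat.mod_lt _ (pow_pos hp.pos _)), ?_⟩
    have h1 : ((d.val : ℕ) : ZMod (p ^ K)) = d := ZMod.natCast_zmod_val d
    have h2 : (p : ZMod (p ^ K)) ^ j * ((p ^ (K - j) * (d.val / p ^ (K - j)) : ℕ) : ZMod (p ^ K)) = 0 := by
      rw [← Nat.cast_pow, ← Nat.cast_mul, ZMod.natCast_eq_zero_iff]
      refine ⟨d.val / p ^ (K - j), ?_⟩
      rw [← mul_assoc, ← pow_add, Nat.add_sub_cancel' hj]
    have h3 : d = ((p ^ (K - j) * (d.val / p ^ (K - j)) : ℕ) : ZMod (p ^ K)) +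
        ((d.val % p ^ (K - j) : ℕ) : ZMod (p ^ K)) := by
      rw [← Nat.cast_add, Nat.div_add_mod, h1]
    have h4 : (p : ZMod (p ^ K)) ^ j * d =
        (p : ZMod (p ^ K)) ^ j * ((d.val % p ^ (K - j) : ℕ) : ZMod (p ^ K)) := by
      conv_lhs => rw [h3]
      rw [mul_add, h2, zero_add]
    rw [← h4, ← hd]
    ring
  refine (Finset.card_le_card hsub).trans (Finset.card_image_le.trans ?_)
  rw [Finset.card_range]

/-- Linnik's lemma. -/
theorem linnik (p K : ℕ) (hp : p.Prime) (hK : K < p) [NeZero (p ^ K)] (lam : Fin K → ZMod (p ^ K)) :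
    ((Finset.univ : Finset (Fin K → ZMod (p ^ K))).filter fun x =>
      (∀ i j, i ≠ j → IsUnit (x i - x j)) ∧
        ∀ j : Fin K, ((p : ZMod (p ^ K)) ^ (j.val + 1)) ∣ (∑ i, x i ^ (j.val + 1)) - lam j).card
      ≤ K.factorial * p ^ (K * (K - 1) / 2) := by
  classical
  have hM : (Fintype.piFinset fun j : Fin K => (Finset.univ : Finset (ZMod (p ^ K))).filter fun m =>
      ((p : ZMod (p ^ K)) ^ (j.val + 1)) ∣ m - lam j).card ≤ p ^ (K * (K - 1) / 2) := by
    rw [Fintype.card_piFinset]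
    refine (Finset.prod_le_prod (fun _ _ => Nat.zero_le _) fun j _ =>
      linnik_class p K (j.val + 1) hp (by have := j.2; omega) (lam j)).trans ?_
    rw [Finset.prod_pow_eq_pow_sum]
    refine le_of_eq (congrArg _ ?_)
    rw [Fin.sum_univ_eq_sum_range (fun i => K - (i + 1)) K, ← Finset.sum_range_id]
    rw [← Finset.sum_range_reflect (fun i => i) K]
    refine Finset.sum_congr rfl fun i _ => by omega
  refine (Finset.card_le_mul_card_image_of_maps_to (f := fun x : Fin K → ZMod (p ^ K) =>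
    fun j : Fin K => ∑ i, x i ^ (j.val + 1)) (t := Fintype.piFinset fun j : Fin K =>
      (Finset.univ : Finset (ZMod (p ^ K))).filter fun m =>
      ((p : ZMod (p ^ K)) ^ (j.val + 1)) ∣ m - lam j) ?_ K.factorial ?_).trans
    (Nat.mul_le_mul_left _ hM)
  · intro x hx
    refine Fintype.mem_piFinset.2 fun j => Finset.mem_filter.2 ⟨Finset.mem_univ _, ?_⟩
    exact (Finset.mem_filter.1 hx).2.2 j
  · intro μ _
    refine le_trans (Finset.card_le_card ?_) (card_fixed_le p K hp hK μ)
    intro x hx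
    obtain ⟨hx1, hx2⟩ := Finset.mem_filter.1 hx
    refine Finset.mem_filter.2 ⟨Finset.mem_univ _, (Finset.mem_filter.1 hx1).2.1, fun j => ?_⟩
    exact congrFun hx2 j

end MP14ee70.TY.V
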