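import Mathlib
import Pool.Agent.Lib.MP_14ee70_nt.TY.Defs

/-!
# Project TY, file V/Coll: collision counts, the combinatorial inequalities

With `r_T v = #{x ∈ T : f x = v}` one has `coll T f = ∑_v (r_T v) ^ 2` (sum over the finite image), so the first
inequalities are Cauchy-Schwarz.
-/

namespace MP14ee70.TY.V

open Finset

variable {X Y V : Type*} [DecidableEq V]

/-- `coll T f = ∑ v ∈ T.image f, (#{x ∈ T : f x = v}) ^ 2`. -/
theorem coll_eq_sum (T : Finset X) (f : X → V) :
    coll T f = ∑ v ∈ T.image f, ((T.filter fun x => f x = v).card) ^ 2 := by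
  classical
  rw [coll, Finset.card_eq_sum_card_fiberwise (f := fun p => f p.1) (t := T.image f)]
  · refine Finset.sum_congr rfl fun v _ => ?_
    rw [sq, ← Finset.card_product]
    congr 1
    ext ⟨a, b⟩
    simp only [Finset.mem_filter, Finset.mem_product]
    constructor
    · rintro ⟨⟨⟨h1, h2⟩, h3⟩, h4⟩
      exact ⟨⟨h1, h4⟩, h2, h3 ▸ h4⟩
    · rintro ⟨⟨h1, h4⟩, h2, h3⟩
      exact ⟨⟨⟨h1, h2⟩, h4.trans h3.symm⟩, h4⟩
  · intro p hp
    have hp := (Finset.mem_filter.1 hp).1
    exact Finset.mem_image_of_mem _ (Finset.mem_product.1 hp).1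

private theorem sum_le_coll (T : Finset X) (f : X → V) (W : Finset V) :
    ∑ v ∈ W, ((T.filter fun x => f x = v).card) ^ 2 ≤ coll T f := by
  classical
  rw [coll_eq_sum]
  have h1 : ∑ v ∈ T.image f ∪ W, ((T.filter fun x => f x = v).card) ^ 2 =
      ∑ v ∈ T.image f, ((T.filter fun x => f x = v).card) ^ 2 := by
    symm
    refine Finset.sum_subset Finset.subset_union_left fun v _ hv => ?_
    have : (T.filter fun x => f x = v) = ∅ := by
      rw [Finset.filter_eq_empty_iff]
      intro x hx e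
      exact hv (Finset.mem_image.2 ⟨x, hx, e⟩)
    rw [this]
    simp
  rw [← h1]
  exact Finset.sum_le_sum_of_subset Finset.subset_union_right

/-- Monotonicity. -/
theorem coll_mono {T T' : Finset X} (h : T ⊆ T') (f : X → V) : coll T f ≤ coll T' f := by
  exact Finset.card_le_card (Finset.filter_subset_filter _ (Finset.product_subset_product h h))

/-- Union bound: `(∑_{i ∈ s} r_i v)^2 ≤ #s ∑_i (r_i v)^2`.  (`T` need not be equal to the union: it is
enough that it is contained in it.) -/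
theorem coll_le_biUnion {ι : Type*} (s : Finset ι) (T : Finset X) (U : ι → Finset X)
    (hT : ∀ x ∈ T, ∃ i ∈ s, x ∈ U i) (f : X → V) :
    coll T f ≤ s.card * ∑ i ∈ s, coll (U i) f := by
  classical
  have h1 : ∀ v, (T.filter fun x => f x = v).card ≤
      ∑ i ∈ s, ((U i).filter fun x => f x = v).card := by
    intro v
    refine le_trans (Finset.card_le_card ?_) Finset.card_biUnion_le
    intro x hx
    rw [Finset.mem_filter] at hx
    obtain ⟨i, hi, hxi⟩ := hT x hx.1
    exact Finset.mem_biUnion.2 ⟨i, hi, Finset.mem_filter.2 ⟨hxi, hx.2⟩⟩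
  calc coll T f = ∑ v ∈ T.image f, ((T.filter fun x => f x = v).card) ^ 2 := coll_eq_sum T f
    _ ≤ ∑ v ∈ T.image f, s.card * ∑ i ∈ s, (((U i).filter fun x => f x = v).card) ^ 2 := by
      refine Finset.sum_le_sum fun v _ => ?_
      exact le_trans (Nat.pow_le_pow_left (h1 v) 2) sq_sum_le_card_mul_sum_sq
    _ = s.card * ∑ i ∈ s, ∑ v ∈ T.image f, (((U i).filter fun x => f x = v).card) ^ 2 := by
      rw [← Finset.mul_sum, Finset.sum_comm]
    _ ≤ s.card * ∑ i ∈ s, coll (U i) f :=
      Nat.mul_le_mul_left _ (Finset.sum_le_sum fun i _ => sum_le_coll (U i) f _)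

/-- Change of variables: if `g` is injective on `T`, maps `T` into `T'`, and
`f x = f x'` implies `f' (g x) = f' (g x')`, then `coll T f ≤ coll T' f'`. -/
theorem coll_le_of_inj {V' : Type*} [DecidableEq V'] (T : Finset X) (T' : Finset Y) (f : X → V)
    (f' : Y → V') (g : X → Y) (hg : ∀ x ∈ T, g x ∈ T')
    (hinj : ∀ x ∈ T, ∀ x' ∈ T, g x = g x' → x = x')
    (hf : ∀ x ∈ T, ∀ x' ∈ T, f x = f x' → f' (g x) = f' (g x')) :
    coll T f ≤ coll T' f' := by
  refine Finset.card_le_card_of_injOn (fun p => (g p.1, g p.2)) ?_ ?_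
  · rintro ⟨a, b⟩ hp
    have hp := Finset.mem_filter.1 (Finset.mem_coe.1 hp)
    obtain ⟨ha, hb⟩ := Finset.mem_product.1 hp.1
    exact Finset.mem_coe.2 (Finset.mem_filter.2
      ⟨Finset.mem_product.2 ⟨hg _ ha, hg _ hb⟩, hf _ ha _ hb hp.2⟩)
  · rintro ⟨a, b⟩ hp ⟨c, d⟩ hq he
    have hp := Finset.mem_product.1 (Finset.mem_filter.1 (Finset.mem_coe.1 hp)).1
    have hq := Finset.mem_product.1 (Finset.mem_filter.1 (Finset.mem_coe.1 hq)).1
    have he1 : g a = g c := congrArg Prod.fst he
    have he2 : g b = g d := congrArg Prod.snd he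
    have k1 : a = c := hinj _ hp.1 _ hq.1 he1
    have k2 : b = d := hinj _ hp.2 _ hq.2 he2
    rw [k1, k2]

/-- the number of pairs with a prescribed difference is at most the collision number -/
theorem card_diff_le {V : Type*} [DecidableEq V] [AddCommGroup V] (T1 : Finset Y)
    (f1 : Y → V) (c : V) :
    ((T1 ×ˢ T1).filter fun p => f1 p.2 - f1 p.1 = c).card ≤ coll T1 f1 := by
  classical
  have h1 : ((T1 ×ˢ T1).filter fun p => f1 p.2 - f1 p.1 = c).card =
      ∑ v ∈ T1.image f1, (T1.filter fun x => f1 x = v).card *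
        (T1.filter fun x => f1 x = v + c).card := by
    rw [Finset.card_eq_sum_card_fiberwise (f := fun p => f1 p.1) (t := T1.image f1)]
    · refine Finset.sum_congr rfl fun v _ => ?_
      rw [← Finset.card_product]
      congr 1
      ext ⟨a, b⟩
      simp only [Finset.mem_filter, Finset.mem_product]
      constructor
      · rintro ⟨⟨⟨h1, h2⟩, h3⟩, h4⟩
        exact ⟨⟨h1, h4⟩, h2, by rw [← h3, ← h4]; abel⟩
      · rintro ⟨⟨h1, h4⟩, h2, h3⟩
        exact ⟨⟨⟨h1, h2⟩, by rw [h3, h4]; abel⟩, h4⟩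
    · intro p hp
      have hp := (Finset.mem_filter.1 hp).1
      exact Finset.mem_image_of_mem _ (Finset.mem_product.1 hp).1
  have h2 : ∑ v ∈ T1.image f1, ((T1.filter fun x => f1 x = v + c).card) ^ 2 ≤ coll T1 f1 := by
    have := sum_le_coll T1 f1 ((T1.image f1).image fun v => v + c)
    rwa [Finset.sum_image (fun a _ b _ h => add_right_cancel h)] at this
  have h3 := sum_le_coll T1 f1 (T1.image f1)
  have h4 : 2 * ∑ v ∈ T1.image f1, (T1.filter fun x => f1 x = v).card *
        (T1.filter fun x => f1 x = v + c).card ≤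
      ∑ v ∈ T1.image f1, ((T1.filter fun x => f1 x = v).card) ^ 2 +
      ∑ v ∈ T1.image f1, ((T1.filter fun x => f1 x = v + c).card) ^ 2 := by
    rw [Finset.mul_sum, ← Finset.sum_add_distrib]
    refine Finset.sum_le_sum fun v _ => ?_
    have := two_mul_le_add_sq (T1.filter fun x => f1 x = v).card
      (T1.filter fun x => f1 x = v + c).card
    linarith
  rw [h1]
  omega

/-- Shift bound.  Let `V` be an additive commutative group.  For every `c : V` the number of
`(y, y') ∈ T1 × T1` with `f1 y' - f1 y = c` is `∑_v r(v) r(v + c) ≤ coll T1 f1`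
(Cauchy-Schwarz, or `2 a b ≤ a^2 + b^2`).  Therefore the number of solutions
of `f0 x + f1 y = f0 x' + f1 y'` is at most the number of the pairs `(x, x')` which can occur times
`coll T1 f1`. -/
theorem coll_prod_le {V : Type*} [DecidableEq V] [AddCommGroup V] (T0 : Finset X) (T1 : Finset Y)
    (f0 : X → V) (f1 : Y → V) (R : Finset (X × X))
    (hR : ∀ x ∈ T0, ∀ x' ∈ T0, ∀ y ∈ T1, ∀ y' ∈ T1, f0 x + f1 y = f0 x' + f1 y' → (x, x') ∈ R) :
    coll (T0 ×ˢ T1) (fun z => f0 z.1 + f1 z.2) ≤ R.card * coll T1 f1 := by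
  classical
  have h := Finset.card_le_mul_card_image_of_maps_to
    (s := ((T0 ×ˢ T1) ×ˢ (T0 ×ˢ T1)).filter fun p => f0 p.1.1 + f1 p.1.2 = f0 p.2.1 + f1 p.2.2)
    (t := R) (f := fun p => (p.1.1, p.2.1)) (fun p hp => ?_) (coll T1 f1) (fun r _ => ?_)
  · rw [mul_comm]
    exact h
  · simp only [Finset.mem_filter, Finset.mem_product] at hp
    exact hR _ hp.1.1.1 _ hp.1.2.1 _ hp.1.1.2 _ hp.1.2.2 hp.2
  · refine le_trans (Finset.card_le_card_of_injOn (fun p => (p.1.2, p.2.2))
      (t := (T1 ×ˢ T1).filter fun p => f1 p.2 - f1 p.1 = f0 r.1 - f0 r.2) ?_ ?_)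
      (card_diff_le T1 f1 _)
    · intro p hp
      have hp := Finset.mem_coe.1 hp
      simp only [Finset.mem_filter, Finset.mem_product] at hp
      refine Finset.mem_coe.2 (Finset.mem_filter.2 ⟨Finset.mem_product.2
        ⟨hp.1.1.1.2, hp.1.1.2.2⟩, ?_⟩)
      have e1 : p.1.1 = r.1 := congrArg Prod.fst hp.2
      have e2 : p.2.1 = r.2 := congrArg Prod.snd hp.2
      have e3 := hp.1.2
      rw [e1, e2] at e3
      rw [sub_eq_sub_iff_add_eq_add, add_comm, ← e3, add_comm]
    · rintro ⟨⟨a, b⟩, c, d⟩ hp ⟨⟨a', b'⟩, c', d'⟩ hq he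
      have hp := Finset.mem_coe.1 hp
      have hq := Finset.mem_coe.1 hq
      simp only [Finset.mem_filter, Finset.mem_product] at hp hq
      have h1 : a = a' := congrArg Prod.fst (hp.2.trans hq.2.symm)
      have h2 : c = c' := congrArg Prod.snd (hp.2.trans hq.2.symm)
      have h3 : b = b' := congrArg Prod.fst he
      have h4 : d = d' := congrArg Prod.snd he
      rw [h1, h2, h3, h4]

end MP14ee70.TY.V
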