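import Mathlib
import Pool.Agent.Lib.MP_14ee70_nt.TY.V.Coll

/-!
# Project TY, file V/Trans: translation and dilation invariance of the Vinogradov system
-/

namespace MP14ee70.TY.V

open Finset

/-- The entries of `ps`. -/
theorem tr_ps_apply (K : ℕ) {s : ℕ} (x : Fin s → ℤ) (j : Fin K) :
    ps K x j = ∑ i, x i ^ (j.val + 1) := by
  simp [ps, pw, Finset.sum_apply]

/-- Translation invariance for an arbitrary finite index type. -/
theorem tr_key {ι : Type*} [Fintype ι] (K : ℕ) (x z : ι → ℤ) (c : ℤ)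
    (h : ∀ j ≤ K, ∑ i, x i ^ j = ∑ i, z i ^ j) :
    ∀ m ≤ K, ∑ i, (x i + c) ^ m = ∑ i, (z i + c) ^ m := by
  intro m hm
  have h1 : ∀ y : ι → ℤ, ∑ i, (y i + c) ^ m
      = ∑ k ∈ Finset.range (m + 1), (∑ i, y i ^ k) * (c ^ (m - k) * (m.choose k : ℤ)) := by
    intro y
    simp only [add_pow]
    rw [Finset.sum_comm]
    refine Finset.sum_congr rfl fun k _ => ?_
    rw [Finset.sum_mul]
    refine Finset.sum_congr rfl fun i _ => ?_
    ring
  rw [h1 x, h1 z]
  refine Finset.sum_congr rfl fun k hk => ?_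
  rw [h k (by have := Finset.mem_range.1 hk; omega)]

/-- Two blocks at once: `ps K x + ps K y` for tuples of length `s` and `t` (take `Fin.append`,
or repeat the proof). -/
theorem tr_add_const₂ (K s t : ℕ) (x z : Fin s → ℤ) (u v : Fin t → ℤ) (c : ℤ)
    (h : ps K x + ps K u = ps K z + ps K v) :
    ps K (fun i => x i + c) + ps K (fun i => u i + c)
      = ps K (fun i => z i + c) + ps K (fun i => v i + c) := by
  have h0 : ∀ j ≤ K, ∑ i : Fin s ⊕ Fin t, (Sum.elim x u i) ^ j
      = ∑ i : Fin s ⊕ Fin t, (Sum.elim z v i) ^ j := by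
    intro j hj
    rcases Nat.eq_zero_or_pos j with h1 | h1
    · subst h1
      simp
    · have h2 := congrFun h ⟨j - 1, by omega⟩
      rw [Pi.add_apply, Pi.add_apply, tr_ps_apply, tr_ps_apply, tr_ps_apply, tr_ps_apply] at h2
      have h3 : j - 1 + 1 = j := by omega
      simp only [h3] at h2
      rw [Fintype.sum_sum_type, Fintype.sum_sum_type]
      simpa using h2
  have h4 := tr_key K (Sum.elim x u) (Sum.elim z v) c h0
  funext j
  rw [Pi.add_apply, Pi.add_apply, tr_ps_apply, tr_ps_apply, tr_ps_apply, tr_ps_apply]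
  have h5 := h4 (j.val + 1) (by have := j.isLt; omega)
  rw [Fintype.sum_sum_type, Fintype.sum_sum_type] at h5
  simpa using h5

/-- Equal power sums up to degree `K` is a translation invariant condition (binomial theorem; both tuples
have the same length `s`, which is the degree 0 condition). -/
theorem ps_add_const (K s : ℕ) (x z : Fin s → ℤ) (c : ℤ) (h : ps K x = ps K z) :
    ps K (fun i => x i + c) = ps K (fun i => z i + c) := by
  have h1 := tr_add_const₂ K s 0 x z Fin.elim0 Fin.elim0 c (by rw [h])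
  exact add_right_cancel h1

/-- Two blocks at once: `ps K x + ps K y` for tuples of length `s` and `t` (take `Fin.append`,
or repeat the proof). -/
theorem ps_add_const₂ (K s t : ℕ) (x z : Fin s → ℤ) (u v : Fin t → ℤ) (c : ℤ)
    (h : ps K x + ps K u = ps K z + ps K v) :
    ps K (fun i => x i + c) + ps K (fun i => u i + c)
      = ps K (fun i => z i + c) + ps K (fun i => v i + c) :=
  tr_add_const₂ K s t x z u v c h

/-- dilation -/
theorem ps_mul (K s : ℕ) (x : Fin s → ℤ) (p : ℤ) (j : Fin K) :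
    ps K (fun i => p * x i) j = p ^ (j.val + 1) * ps K x j := by
  rw [tr_ps_apply, tr_ps_apply, Finset.mul_sum]
  refine Finset.sum_congr rfl fun i _ => ?_
  rw [mul_pow]

/-- The elements of `[1, P]` congruent to `a` mod `p` are `a' + p u` with `u ∈ [1, P / p + 1]` for a suitable
`a' ≡ a` (`a' = ((a - 1) mod p) + 1 - p ∈ [1 - p, 0]`). -/
theorem cls_sub (P p : ℕ) (hp : 0 < p) (a : ℤ) : ∃ a' : ℤ, (p : ℤ) ∣ a' - a ∧ ∀ x ∈ cls P p a,
    ∃ u ∈ Finset.Icc (1 : ℤ) ((P / p + 1 : ℕ) : ℤ), x = a' + p * u := by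
  have hp' : (0 : ℤ) < (p : ℤ) := by exact_mod_cast hp
  have hm0 : 0 ≤ (a - 1) % (p : ℤ) := Int.emod_nonneg _ hp'.ne'
  have hm1 : (a - 1) % (p : ℤ) < p := Int.emod_lt_of_pos _ hp'
  have hd : (p : ℤ) ∣ ((a - 1) % (p : ℤ) + 1 - p) - a := by
    have h1 := Int.emod_add_mul_ediv (a - 1) (p : ℤ)
    refine ⟨-((a - 1) / (p : ℤ)) - 1, ?_⟩
    linear_combination h1
  refine ⟨(a - 1) % (p : ℤ) + 1 - p, hd, ?_⟩
  intro x hx
  rw [cls, Finset.mem_filter, Finset.mem_Icc] at hx
  obtain ⟨⟨hx1, hx2⟩, hx3⟩ := hx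
  have h2 : (p : ℤ) ∣ x - ((a - 1) % (p : ℤ) + 1 - p) := by
    have h3 := dvd_sub hx3 hd
    have h4 : x - a - (((a - 1) % (p : ℤ) + 1 - p) - a) = x - ((a - 1) % (p : ℤ) + 1 - p) := by
      ring
    rwa [h4] at h3
  obtain ⟨u, hu⟩ := h2
  have hPd : (P : ℤ) = (p : ℤ) * ((P / p : ℕ) : ℤ) + ((P % p : ℕ) : ℤ) := by
    exact_mod_cast (Nat.div_add_mod P p).symm
  have hPm : ((P % p : ℕ) : ℤ) < p := by exact_mod_cast Nat.mod_lt P hp
  refine ⟨u, Finset.mem_Icc.2 ⟨?_, ?_⟩, by linarith⟩
  · by_contra hcon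
    have h5 : u ≤ 0 := by omega
    nlinarith
  · by_contra hcon
    push_cast at hcon
    have h5 : ((P / p : ℕ) : ℤ) + 2 ≤ u := by push_cast; omega
    nlinarith

/-- A residue class is counted by the shorter interval: `x = a' + p u` is a bijection onto a
subset of `[1, P / p + 1]`, and translations and dilations preserve the system. -/
theorem coll_cls_le (s K P p : ℕ) (hp : 0 < p) (a : ℤ) :
    coll (box s (cls P p a)) (ps K) ≤ J s K (P / p + 1) := by
  have hp' : (0 : ℤ) < (p : ℤ) := by exact_mod_cast hp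
  obtain ⟨a', -, ha'⟩ := cls_sub P p hp a
  have hg : ∀ x ∈ box s (cls P p a), ∀ i, (x i - a') / (p : ℤ) ∈
      Finset.Icc (1 : ℤ) ((P / p + 1 : ℕ) : ℤ) ∧ x i = a' + p * ((x i - a') / (p : ℤ)) := by
    intro x hx i
    rw [box, Fintype.mem_piFinset] at hx
    obtain ⟨u, hu, hxu⟩ := ha' (x i) (hx i)
    have h1 : (x i - a') / (p : ℤ) = u := by
      have h2 : x i - a' = (p : ℤ) * u := by rw [hxu]; ring
      rw [h2, Int.mul_ediv_cancel_left _ hp'.ne']
    rw [h1]
    exact ⟨hu, hxu⟩
  refine coll_le_of_inj (box s (cls P p a)) (box s (Finset.Icc 1 ((P / p + 1 : ℕ) : ℤ)))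
    (ps K) (ps K) (fun x i => (x i - a') / (p : ℤ)) ?_ ?_ ?_
  · intro x hx
    rw [box, Fintype.mem_piFinset]
    intro i
    exact (hg x hx i).1
  · intro x hx x' hx' h
    funext i
    have h1 := congrFun h i
    rw [(hg x hx i).2, (hg x' hx' i).2, h1]
  · intro x hx x' hx' h
    have h1 := ps_add_const K s x x' (-a') h
    have h2 : ∀ y ∈ box s (cls P p a), (fun i => y i + -a')
        = fun i => (p : ℤ) * ((y i - a') / (p : ℤ)) := by
      intro y hy
      funext i
      have := (hg y hy i).2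
      linarith
    rw [h2 x hx, h2 x' hx'] at h1
    funext j
    have h3 := congrFun h1 j
    rw [ps_mul, ps_mul] at h3
    exact mul_left_cancel₀ (pow_ne_zero _ hp'.ne') h3

/-- The number of tuples of the box `[1, P] ^ s`. -/
theorem tr_card_box (s P : ℕ) : (box s (Finset.Icc 1 (P : ℤ))).card = P ^ s := by
  rw [box, Fintype.card_piFinset]
  simp

/-- `J_{s} (P) ≤ P ^ (2 s)`. -/
theorem J_le_triv (s K P : ℕ) : J s K P ≤ P ^ (2 * s) := by
  rw [J, coll]
  refine (Finset.card_filter_le _ _).trans ?_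
  rw [Finset.card_product, tr_card_box, ← pow_add, two_mul]

/-- Equal multisets of values: a permutation. -/
theorem tr_perm {s : ℕ} {x y : Fin s → ℤ}
    (h : Finset.univ.val.map x = Finset.univ.val.map y) :
    ∃ σ : Equiv.Perm (Fin s), y = x ∘ σ := by
  have h1 : (List.ofFn x).Perm (List.ofFn y) := by
    apply Multiset.coe_eq_coe.1
    rw [← Fin.univ_val_map, ← Fin.univ_val_map]
    exact h
  have h2 : x ∘ Tuple.sort x = y ∘ Tuple.sort y := by
    apply List.ofFn_injective
    exact (((Tuple.sort x).ofFn_comp_perm x).trans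
      (h1.trans ((Tuple.sort y).ofFn_comp_perm y).symm)).eq_of_pairwise'
      (Tuple.monotone_sort x).sortedLE_ofFn.pairwise (Tuple.monotone_sort y).sortedLE_ofFn.pairwise
  refine ⟨(Tuple.sort y).symm.trans (Tuple.sort x), ?_⟩
  funext i
  have h3 := congrFun h2 ((Tuple.sort y).symm i)
  simp only [Function.comp_apply, Equiv.apply_symm_apply] at h3
  rw [Function.comp_apply, Equiv.trans_apply]
  exact h3.symm

/-- Newton: tuples of length `s` with equal power sums of order `≤ s` are permutations of each other. -/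
theorem tr_psum_perm {s : ℕ} {x y : Fin s → ℤ} (h : ∀ j ≤ s, ∑ i, x i ^ j = ∑ i, y i ^ j) :
    ∃ σ : Equiv.Perm (Fin s), y = x ∘ σ := by
  set X : Fin s → ℚ := fun i => (x i : ℚ) with hX
  set Y : Fin s → ℚ := fun i => (y i : ℚ) with hY
  have hp : ∀ j ≤ s, MvPolynomial.aeval X (MvPolynomial.psum (Fin s) ℚ j)
      = MvPolynomial.aeval Y (MvPolynomial.psum (Fin s) ℚ j) := by
    intro j hj
    rw [MvPolynomial.psum, map_sum, map_sum]
    simp only [map_pow, MvPolynomial.aeval_X, hX, hY]
    exact_mod_cast h j hj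
  have he : ∀ k, k ≤ s → MvPolynomial.aeval X (MvPolynomial.esymm (Fin s) ℚ k)
      = MvPolynomial.aeval Y (MvPolynomial.esymm (Fin s) ℚ k) := by
    intro k
    induction k using Nat.strong_induction_on with
    | _ k ih =>
      intro hk
      rcases Nat.eq_zero_or_pos k with h0 | h0
      · subst h0
        simp
      · have hN := MvPolynomial.mul_esymm_eq_sum (Fin s) ℚ k
        have hx := congrArg (MvPolynomial.aeval X) hN
        have hy := congrArg (MvPolynomial.aeval Y) hN
        rw [map_mul, map_natCast, map_mul, map_sum] at hx hy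
        have hs : ∑ a ∈ (Finset.HasAntidiagonal.antidiagonal k).filter (fun a : ℕ × ℕ => a.1 < k),
            MvPolynomial.aeval X ((-1) ^ a.1 * MvPolynomial.esymm (Fin s) ℚ a.1 *
              MvPolynomial.psum (Fin s) ℚ a.2) =
            ∑ a ∈ (Finset.HasAntidiagonal.antidiagonal k).filter (fun a : ℕ × ℕ => a.1 < k),
            MvPolynomial.aeval Y ((-1) ^ a.1 * MvPolynomial.esymm (Fin s) ℚ a.1 *
              MvPolynomial.psum (Fin s) ℚ a.2) := by
          refine Finset.sum_congr rfl fun a ha => ?_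
          rw [Finset.mem_filter, Finset.HasAntidiagonal.mem_antidiagonal] at ha
          rw [map_mul, map_mul, map_mul, map_mul, ih a.1 ha.2 (by omega), hp a.2 (by omega)]
          simp only [map_pow, map_neg, map_one]
        rw [hs] at hx
        have hxy : (k : ℚ) * MvPolynomial.aeval X (MvPolynomial.esymm (Fin s) ℚ k)
            = (k : ℚ) * MvPolynomial.aeval Y (MvPolynomial.esymm (Fin s) ℚ k) := by
          rw [hx, hy]
          simp only [map_pow, map_neg, map_one]
        exact mul_left_cancel₀ (by exact_mod_cast h0.ne') hxy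
  have hprod : ((Finset.univ.val.map X).map fun t => Polynomial.X - Polynomial.C t).prod
      = ((Finset.univ.val.map Y).map fun t => Polynomial.X - Polynomial.C t).prod := by
    rw [Multiset.prod_X_sub_X_eq_sum_esymm, Multiset.prod_X_sub_X_eq_sum_esymm,
      Multiset.card_map, Multiset.card_map]
    have hc : Multiset.card (Finset.univ : Finset (Fin s)).val = s := by simp
    rw [hc]
    refine Finset.sum_congr rfl fun j hj => ?_
    rw [Finset.mem_range] at hj
    rw [← MvPolynomial.aeval_esymm_eq_multiset_esymm (Fin s) ℚ,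
      ← MvPolynomial.aeval_esymm_eq_multiset_esymm (Fin s) ℚ, he j (by omega)]
  have hmul : Finset.univ.val.map X = Finset.univ.val.map Y := by
    rw [← Polynomial.roots_multiset_prod_X_sub_C (Finset.univ.val.map X), hprod,
      Polynomial.roots_multiset_prod_X_sub_C]
  apply tr_perm
  have h1 : (Finset.univ.val.map x).map (Int.cast : ℤ → ℚ)
      = (Finset.univ.val.map y).map (Int.cast : ℤ → ℚ) := by
    rw [Multiset.map_map, Multiset.map_map]
    exact hmul
  exact Multiset.map_injective Int.cast_injective h1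

/-- Tuples of length `K` with the same image under `ps K` are permutations of each other. -/
theorem tr_ps_perm {K : ℕ} {x z : Fin K → ℤ} (h : ps K x = ps K z) :
    ∃ σ : Equiv.Perm (Fin K), z = x ∘ σ := by
  apply tr_psum_perm
  intro j hj
  rcases Nat.eq_zero_or_pos j with h1 | h1
  · subst h1
    simp
  · have h2 := congrFun h ⟨j - 1, by omega⟩
    rw [tr_ps_apply, tr_ps_apply] at h2
    have h3 : j - 1 + 1 = j := by omega
    simp only [h3] at h2
    exact h2

/-- `J_{K, K} (P) ≤ K! P ^ K`: over `ℤ` (or in the field `ℚ`) the power sums up to degree `K` of `K` numbers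
determine them up to order (Newton).  For every `z` there are at most `K!` tuples `x`. -/
theorem J_base (K P : ℕ) : J K K P ≤ K.factorial * P ^ K := by
  classical
  have h1 : ((box K (Finset.Icc 1 (P : ℤ)) ×ˢ box K (Finset.Icc 1 (P : ℤ))).filter
      fun p => ps K p.1 = ps K p.2) ⊆
      ((Finset.univ : Finset (Equiv.Perm (Fin K))) ×ˢ box K (Finset.Icc 1 (P : ℤ))).image
        (fun p => (p.2, p.2 ∘ p.1)) := by
    rintro ⟨x, z⟩ hq
    rw [Finset.mem_filter, Finset.mem_product] at hq
    obtain ⟨σ, hσ⟩ := tr_ps_perm hq.2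
    rw [Finset.mem_image]
    refine ⟨(σ, x), Finset.mem_product.2 ⟨Finset.mem_univ _, hq.1.1⟩, ?_⟩
    simp only [Prod.mk.injEq, true_and]
    exact hσ.symm
  rw [J, coll]
  refine (Finset.card_le_card h1).trans (Finset.card_image_le.trans ?_)
  rw [Finset.card_product, tr_card_box, Finset.card_univ, Fintype.card_perm, Fintype.card_fin]

end MP14ee70.TY.V
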