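import Mathlib
import Pool.Agent.Lib.MP_14ee70_nt.TY.V.Trans
import Pool.Agent.Lib.MP_14ee70_nt.TY.V.Linnik

/-!
# Project TY, file V/Well: the well-spaced block

`well K P p × (cls P p a) ^ m`.  Proof of `coll_well_le`: let `(x, u), (z, v)` be a collision:
`ps K x + ps K u = ps K z + ps K v`, `x, z ∈ well K P p`, `u, v ∈ box m (cls P p a)`.  By translation by `-a`
(`ps_add_const₂`): `∑ (x_i - a)^j - ∑ (z_i - a)^j = ∑ (v_i - a)^j - ∑ (u_i - a)^j ≡ 0 mod p^j`, since
`p ∣ u_i - a, v_i - a`.  So `(x, z)` lies in the set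
`R = {(x, z) ∈ well × well : p^j ∣ ∑ (x_i - a)^j - ∑ (z_i - a)^j for j = 1..K}`.
For given `z` (`P^K` choices at most) the reduction of `x - a` mod `p^K` is one of at most `K! p^(K(K-1)/2)` tuples
(`linnik`; the entries are different mod `p`, so the differences are units mod `p^K`), and every
residue class mod `p^K` has at most `P / p^K + 1` elements in `[1, P]`.  So
`#R ≤ P^K K! p^(K(K-1)/2) (P / p^K + 1)^K`; conclude by `coll_prod_le` and `coll_cls_le`.
-/

namespace MP14ee70.TY.V

open Finset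

/-- a residue class mod `q` has at most `P / q + 1` elements in `[1, P]` -/
theorem well_res (P q : ℕ) (hq : 0 < q) (a : ℤ) (r : ZMod q) :
    ((Finset.Icc 1 (P : ℤ)).filter fun x => ((x - a : ℤ) : ZMod q) = r).card ≤ P / q + 1 := by
  have hq' : (0 : ℤ) < q := by exact_mod_cast hq
  have h1 : (Finset.Icc (0 : ℤ) ((P / q : ℕ) : ℤ)).card = P / q + 1 := by
    generalize P / q = b
    rw [Int.card_Icc]
    omega
  rw [← h1]
  refine Finset.card_le_card_of_injOn (fun x => (x - 1) / q) ?_ ?_
  · intro x hx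
    rw [Finset.mem_coe, Finset.mem_filter, Finset.mem_Icc] at hx
    rw [Finset.mem_coe, Finset.mem_Icc]
    refine ⟨Int.ediv_nonneg (by omega) hq'.le, ?_⟩
    rw [Int.natCast_ediv]
    exact Int.ediv_le_ediv hq' (by omega)
  · intro x hx x' hx' hxx
    rw [Finset.mem_coe, Finset.mem_filter] at hx hx'
    have h2 : ((x - a : ℤ) : ZMod q) = ((x' - a : ℤ) : ZMod q) := hx.2.trans hx'.2.symm
    rw [ZMod.intCast_eq_intCast_iff_dvd_sub] at h2
    obtain ⟨c, hc⟩ := h2
    have h3 : x' - 1 = x - 1 + q * c := by linarith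
    have hxx' : (x - 1) / (q : ℤ) = (x' - 1) / (q : ℤ) := hxx
    rw [h3, Int.add_mul_ediv_left _ _ hq'.ne'] at hxx'
    have h4 : c = 0 := by omega
    rw [h4, mul_zero, add_zero] at h3
    omega

theorem well_fiber (K P q : ℕ) (hq : 0 < q) (a : ℤ) (B : Finset (Fin K → ℤ))
    (hB : B ⊆ box K (Finset.Icc 1 (P : ℤ))) (r : Fin K → ZMod q) :
    (B.filter fun x => (fun i => ((x i - a : ℤ) : ZMod q)) = r).card ≤ (P / q + 1) ^ K := by
  have h1 : (B.filter fun x => (fun i => ((x i - a : ℤ) : ZMod q)) = r) ⊆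
      Fintype.piFinset fun i => (Finset.Icc 1 (P : ℤ)).filter fun x =>
        ((x - a : ℤ) : ZMod q) = r i := by
    intro x hx
    rw [Finset.mem_filter] at hx
    rw [Fintype.mem_piFinset]
    intro i
    rw [Finset.mem_filter]
    refine ⟨?_, congrFun hx.2 i⟩
    have h2 := hB hx.1
    rw [box, Fintype.mem_piFinset] at h2
    exact h2 i
  refine (Finset.card_le_card h1).trans ?_
  rw [Fintype.card_piFinset]
  refine (Finset.prod_le_pow_card _ _ (P / q + 1) fun i _ => well_res P q hq a (r i)).trans ?_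
  rw [Finset.card_univ, Fintype.card_fin]

theorem coll_well_le (m K P p : ℕ) (hp : p.Prime) (hK : K < p) (a : ℤ) :
    coll (well K P p ×ˢ box m (cls P p a)) (fun z => ps K z.1 + ps K z.2)
      ≤ P ^ K * (K.factorial * p ^ (K * (K - 1) / 2)) * (P / p ^ K + 1) ^ K * J m K (P / p + 1) := by
  classical
  have hpK : 0 < p ^ K := pow_pos hp.pos K
  have : NeZero (p ^ K) := ⟨hpK.ne'⟩
  obtain ⟨R, hR⟩ : ∃ R : Finset ((Fin K → ℤ) × (Fin K → ℤ)),
      R = (well K P p ×ˢ well K P p).filter fun w => ∀ j : Fin K,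
        (p : ℤ) ^ (j.val + 1) ∣ ∑ i, (w.1 i - a) ^ (j.val + 1) - ∑ i, (w.2 i - a) ^ (j.val + 1) :=
    ⟨_, rfl⟩
  have hwb : well K P p ⊆ box K (Finset.Icc 1 (P : ℤ)) := Finset.filter_subset _ _
  have hbox : (box K (Finset.Icc 1 (P : ℤ))).card = P ^ K := by
    rw [box, Fintype.card_piFinset, Finset.prod_const, Finset.card_univ, Fintype.card_fin,
      Int.card_Icc]
    congr 1
    omega
  have hps : ∀ {s : ℕ} (x : Fin s → ℤ) (j : Fin K),
      ps K (fun i => x i + -a) j = ∑ i, (x i - a) ^ (j.val + 1) := by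
    intro s x j
    rw [ps, Finset.sum_apply]
    exact Finset.sum_congr rfl fun i _ => by rw [pw, sub_eq_add_neg]
  have hdv : ∀ y ∈ box m (cls P p a), ∀ j : Fin K,
      (p : ℤ) ^ (j.val + 1) ∣ ∑ i, (y i - a) ^ (j.val + 1) := by
    intro y hy j
    rw [box, Fintype.mem_piFinset] at hy
    refine Finset.dvd_sum fun i _ => pow_dvd_pow_of_dvd ?_ _
    have := hy i
    rw [cls, Finset.mem_filter] at this
    exact this.2
  have h1 : coll (well K P p ×ˢ box m (cls P p a)) (fun z => ps K z.1 + ps K z.2) ≤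
      R.card * coll (box m (cls P p a)) (ps K) := by
    refine coll_prod_le _ _ _ _ R ?_
    intro x hx x' hx' y hy y' hy' h
    rw [hR, Finset.mem_filter, Finset.mem_product]
    refine ⟨⟨hx, hx'⟩, fun j => ?_⟩
    have h2 := congrFun (ps_add_const₂ K K m x x' y y' (-a) h) j
    rw [Pi.add_apply, Pi.add_apply, hps, hps, hps, hps] at h2
    have h3 : ∑ i, (x i - a) ^ (j.val + 1) - ∑ i, (x' i - a) ^ (j.val + 1) =
        ∑ i, (y' i - a) ^ (j.val + 1) - ∑ i, (y i - a) ^ (j.val + 1) := by linarith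
    change (p : ℤ) ^ (j.val + 1) ∣
      ∑ i, (x i - a) ^ (j.val + 1) - ∑ i, (x' i - a) ^ (j.val + 1)
    rw [h3]
    exact dvd_sub (hdv y' hy' j) (hdv y hy j)
  have h2 : R.card ≤ P ^ K * (K.factorial * p ^ (K * (K - 1) / 2)) * (P / p ^ K + 1) ^ K := by
    have h3 : R.card ≤ ((K.factorial * p ^ (K * (K - 1) / 2)) * (P / p ^ K + 1) ^ K) *
        (well K P p).card := by
      refine Finset.card_le_mul_card_image_of_maps_to (f := Prod.snd) (fun w hw => ?_) _ ?_
      · rw [hR, Finset.mem_filter, Finset.mem_product] at hw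
        exact hw.1.2
      · intro z hz
        -- the tuples `x` for a given `z`
        have h4 : (R.filter fun w => w.2 = z).card ≤ ((well K P p).filter fun x => ∀ j : Fin K,
            (p : ℤ) ^ (j.val + 1) ∣
              ∑ i, (x i - a) ^ (j.val + 1) - ∑ i, (z i - a) ^ (j.val + 1)).card := by
          refine Finset.card_le_card_of_injOn Prod.fst ?_ ?_
          · intro w hw
            rw [Finset.mem_coe, Finset.mem_filter, hR, Finset.mem_filter,
              Finset.mem_product] at hw
            obtain ⟨⟨⟨hw1, _⟩, hw2⟩, rfl⟩ := hw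
            rw [Finset.mem_coe, Finset.mem_filter]
            exact ⟨hw1, hw2⟩
          · intro w hw w' hw' hww
            rw [Finset.mem_coe, Finset.mem_filter] at hw hw'
            exact Prod.ext hww (hw.2.trans hw'.2.symm)
        refine h4.trans ?_
        rw [mul_comm]
        refine (Finset.card_le_mul_card_image_of_maps_to
          (f := fun (x : Fin K → ℤ) (i : Fin K) => ((x i - a : ℤ) : ZMod (p ^ K)))
          (t := (Finset.univ : Finset (Fin K → ZMod (p ^ K))).filter fun x =>
            (∀ i j, i ≠ j → IsUnit (x i - x j)) ∧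
            ∀ j : Fin K, ((p : ZMod (p ^ K)) ^ (j.val + 1)) ∣ (∑ i, x i ^ (j.val + 1)) -
              ((∑ i, (z i - a) ^ (j.val + 1) : ℤ) : ZMod (p ^ K))) (fun x hx => ?_)
          ((P / p ^ K + 1) ^ K) ?_).trans
          (Nat.mul_le_mul_left _ (linnik p K hp hK fun j =>
            ((∑ i, (z i - a) ^ (j.val + 1) : ℤ) : ZMod (p ^ K))))
        · rw [Finset.mem_filter, well, Finset.mem_filter] at hx
          obtain ⟨⟨_, hx1⟩, hx2⟩ := hx
          rw [Finset.mem_filter]
          refine ⟨Finset.mem_univ _, fun i j hij => ?_, fun j => ?_⟩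
          · have h5 : ((x i - a : ℤ) : ZMod (p ^ K)) - ((x j - a : ℤ) : ZMod (p ^ K)) =
                ((x i - x j : ℤ) : ZMod (p ^ K)) := by
              push_cast
              ring
            rw [h5, ZMod.coe_int_isUnit_iff_isCoprime]
            push_cast
            refine IsCoprime.pow_left ?_
            rw [Irreducible.coprime_iff_not_dvd (Nat.prime_iff_prime_int.1 hp).irreducible]
            exact hx1 i j hij
          · obtain ⟨c, hc⟩ := hx2 j
            refine ⟨(c : ZMod (p ^ K)), ?_⟩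
            have h5 := congrArg (fun b : ℤ => (b : ZMod (p ^ K))) hc
            beta_reduce at h5
            push_cast at h5 ⊢
            exact h5
        · intro r _
          exact well_fiber K P (p ^ K) hpK a _ ((Finset.filter_subset _ _).trans hwb) r
    refine h3.trans ?_
    have h4 : (well K P p).card ≤ P ^ K := (Finset.card_le_card hwb).trans hbox.le
    calc ((K.factorial * p ^ (K * (K - 1) / 2)) * (P / p ^ K + 1) ^ K) * (well K P p).card
        ≤ ((K.factorial * p ^ (K * (K - 1) / 2)) * (P / p ^ K + 1) ^ K) * P ^ K :=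
          Nat.mul_le_mul_left _ h4
      _ = _ := by ring
  exact h1.trans (Nat.mul_le_mul h2 (coll_cls_le m K P p hp.pos a))

end MP14ee70.TY.V
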