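import Mathlib
import Pool.Agent.Lib.MP_14ee70_nt.TY.V.Well
import Pool.Agent.Lib.MP_14ee70_nt.TY.V.Four

/-!
# Project TY, file V/Red: the reduction inequality

Proof.  `T = box s [1, P]`, `s = K + m`.  `T = T_A ∪ T_B`: in `T_A` the tuples with at least `K` different
residues mod `p`, in `T_B` the others.  `coll T ≤ 2 coll T_A + 2 coll T_B` (`coll_le_biUnion` with two sets).

A.  `T_A` is contained in the union over the injections `ι : Fin K ↪ Fin s` (at most `s^K`) of
`T_ι = {x : x_{ι i} pairwise different mod p}`.  `coll T_A ≤ s^K ∑_ι coll T_ι`, and (permuting the coordinates,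
`coll_le_of_inj`) `coll T_ι ≤ coll (well K P p ×ˢ box m [1,P]) =: W` (a bijection `Fin s ≃ Fin K ⊕ Fin m` extending
`ι⁻¹`).  So `coll T_A ≤ s^(2K) W`.
`well × box m [1,P]` is the union over the `p^m` maps `π : Fin m → Fin p` of
`well × piFinset (fun i => cls P p (π i))`; by `coll_le_biUnion` and
`coll_pi_le` (with `T0 = well`, `f0 = ps K`, `g = pw K`) `W ≤ p^m ∑_π max_a coll (well × box m (cls P p a)) ≤ p^(2m) max`.
(For `m = 0` all is trivial: `W = coll well ≤` the same with `J 0 = 1`.)  Then `coll_well_le`.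

B.  `T_B` is contained in the union over the maps `π : Fin s → Fin p` with at most `K - 1` values of
`piFinset (fun i => cls P p (π i))`; the number of the `π` is at most `p^(K-1) K^s`
(choose a map `c : Fin (K-1) → Fin p` and a map `Fin s → Fin (K-1)`, `K ≥ 2`);
by `coll_le_biUnion`, `coll_pi_le` (with `T0` a point) and `coll_cls_le`:
`coll T_B ≤ (p^(K-1) K^s)^2 J s K (P/p+1)`.
-/

namespace MP14ee70.TY.V

open Finset

/-- uniform form of the union bound -/
theorem red_union {X ι : Type*} {V : Type*} [DecidableEq V] (s : Finset ι) (T : Finset X)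
    (U : ι → Finset X) (hT : ∀ x ∈ T, ∃ i ∈ s, x ∈ U i) (f : X → V) (M : ℕ)
    (hM : ∀ i ∈ s, coll (U i) f ≤ M) : coll T f ≤ s.card * (s.card * M) := by
  refine (coll_le_biUnion s T U hT f).trans (Nat.mul_le_mul_left _ ?_)
  refine (Finset.sum_le_card_nsmul s _ M hM).trans ?_
  rw [smul_eq_mul]

/-- the residue of an integer -/
theorem red_res {p : ℕ} (hp : 0 < p) (x : ℤ) : ∃ r : Fin p, (p : ℤ) ∣ x - (r : ℕ) := by
  have h0 : (0 : ℤ) < p := by exact_mod_cast hp
  have h1 := Int.emod_nonneg x h0.ne'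
  have h2 := Int.emod_lt_of_pos x h0
  refine ⟨⟨(x % p).toNat, by omega⟩, ?_⟩
  show (p : ℤ) ∣ x - ((x % p).toNat : ℕ)
  rw [Int.toNat_of_nonneg h1]
  exact ⟨x / p, by have := Int.emod_add_mul_ediv x p; linarith⟩

theorem red_mem_cls {P p : ℕ} {x a : ℤ} : x ∈ cls P p a ↔ x ∈ Finset.Icc 1 (P : ℤ) ∧
    (p : ℤ) ∣ x - a := by
  unfold cls
  rw [Finset.mem_filter]

/-- an injective map from `Fin K` can be completed to a bijection -/
theorem red_equiv {K m : ℕ} (ι : Fin K → Fin (K + m)) (hι : Function.Injective ι) :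
    ∃ e : Fin K ⊕ Fin m ≃ Fin (K + m), ∀ i, e (Sum.inl i) = ι i := by
  classical
  have hc : Fintype.card ↥(Set.range ι)ᶜ = m := by
    rw [Fintype.card_compl_set, Set.card_range_of_injective hι]
    simp
  let e1 : Fin K ≃ Set.range ι := Equiv.ofInjective ι hι
  let e2 : Fin m ≃ ↥(Set.range ι)ᶜ := (Fintype.equivFinOfCardEq hc).symm
  refine ⟨(Equiv.sumCongr e1 e2).trans (Equiv.Set.sumCompl (Set.range ι)), fun i => ?_⟩
  simp [e1]

/-- the collisions of tuples whose coordinates are in residue classes -/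
theorem red_pi {s K P p : ℕ} (hs : 0 < s) (hp : 0 < p) (a : Fin s → ℤ) :
    coll (Fintype.piFinset fun i => cls P p (a i)) (ps K) ≤ J s K (P / p + 1) := by
  classical
  have h1 : coll (Fintype.piFinset fun i => cls P p (a i)) (ps K) ≤
      coll (({()} : Finset Unit) ×ˢ Fintype.piFinset fun i => cls P p (a i))
        (fun z => (fun _ : Unit => (0 : Fin K → ℤ)) z.1 + ∑ i, pw K (z.2 i)) := by
    refine coll_le_of_inj _ _ _ _ (fun x => ((), x)) ?_ ?_ ?_
    · intro x hx
      rw [Finset.mem_product]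
      exact ⟨Finset.mem_singleton_self _, hx⟩
    · intro x _ x' _ h
      exact congrArg Prod.snd h
    · intro x _ x' _ h
      show (0 : Fin K → ℤ) + ∑ i, pw K (x i) = 0 + ∑ i, pw K (x' i)
      rw [zero_add, zero_add]
      exact h
  have h2 := coll_pi_le K s ({()} : Finset Unit) (fun _ : Unit => (0 : Fin K → ℤ))
    (fun i => cls P p (a i)) (pw K)
  have h3 : ∀ i, coll (({()} : Finset Unit) ×ˢ Fintype.piFinset (fun _ : Fin s => cls P p (a i)))
      (fun z => (fun _ : Unit => (0 : Fin K → ℤ)) z.1 + ∑ i, pw K (z.2 i)) ≤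
        J s K (P / p + 1) := by
    intro i
    refine le_trans ?_ (coll_cls_le s K P p hp (a i))
    refine coll_le_of_inj _ _ _ _ (fun x => x.2) ?_ ?_ ?_
    · intro x hx
      rw [Finset.mem_product] at hx
      exact hx.2
    · intro x _ x' _ h
      exact Prod.ext rfl h
    · intro x _ x' _ h
      have h4 : (0 : Fin K → ℤ) + ∑ i, pw K (x.2 i) = 0 + ∑ i, pw K (x'.2 i) := h
      rw [zero_add, zero_add] at h4
      exact h4
  have h4 : s * coll (({()} : Finset Unit) ×ˢ Fintype.piFinset fun i => cls P p (a i))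
      (fun z => (fun _ : Unit => (0 : Fin K → ℤ)) z.1 + ∑ i, pw K (z.2 i)) ≤
        s * J s K (P / p + 1) := by
    refine h2.trans ((Finset.sum_le_card_nsmul _ _ _ fun i _ => h3 i).trans ?_)
    rw [smul_eq_mul, Finset.card_univ, Fintype.card_fin]
  exact h1.trans (Nat.le_of_mul_le_mul_left h4 hs)

/-- the well-spaced block times a product of residue classes -/
theorem red_well {m K P p : ℕ} (hp : p.Prime) (hK : K < p) (a : Fin m → ℤ) :
    coll (well K P p ×ˢ Fintype.piFinset fun i => cls P p (a i))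
        (fun z => ps K z.1 + ps K z.2) ≤
      P ^ K * (K.factorial * p ^ (K * (K - 1) / 2)) * (P / p ^ K + 1) ^ K * J m K (P / p + 1) := by
  classical
  rcases Nat.eq_zero_or_pos m with rfl | hm
  · have h1 : (Fintype.piFinset fun i => cls P p (a i)) = box 0 (cls P p 0) := by
      unfold box
      congr 1
      funext i
      exact i.elim0
    rw [h1]
    exact coll_well_le 0 K P p hp hK 0
  · have h2 := coll_pi_le K m (well K P p) (ps K) (fun i => cls P p (a i)) (pw K)
    have h3 : ∀ i, coll (well K P p ×ˢ Fintype.piFinset (fun _ : Fin m => cls P p (a i)))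
        (fun z => ps K z.1 + ∑ i, pw K (z.2 i)) ≤
        P ^ K * (K.factorial * p ^ (K * (K - 1) / 2)) * (P / p ^ K + 1) ^ K *
          J m K (P / p + 1) := fun i => coll_well_le m K P p hp hK (a i)
    have h4 := h2.trans ((Finset.sum_le_card_nsmul _ _ _ fun i _ => h3 i))
    rw [smul_eq_mul, Finset.card_univ, Fintype.card_fin] at h4
    exact Nat.le_of_mul_le_mul_left h4 hm

theorem red_W {m K P p : ℕ} (hp : p.Prime) (hK : K < p) :
    coll (well K P p ×ˢ box m (Finset.Icc 1 (P : ℤ))) (fun z => ps K z.1 + ps K z.2) ≤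
      p ^ (2 * m) * (P ^ K * (K.factorial * p ^ (K * (K - 1) / 2)) * (P / p ^ K + 1) ^ K *
        J m K (P / p + 1)) := by
  classical
  have h := red_union (Finset.univ : Finset (Fin m → Fin p))
    (well K P p ×ˢ box m (Finset.Icc 1 (P : ℤ)))
    (fun π => well K P p ×ˢ Fintype.piFinset fun i => cls P p ((π i : ℕ) : ℤ)) (by
      rintro ⟨x, z⟩ hz
      rw [Finset.mem_product] at hz
      choose π hπ using fun i => red_res hp.pos (z i)
      refine ⟨π, Finset.mem_univ _, ?_⟩
      rw [Finset.mem_product]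
      refine ⟨hz.1, ?_⟩
      rw [Fintype.mem_piFinset]
      intro i
      rw [red_mem_cls]
      have h1 := hz.2
      unfold box at h1
      rw [Fintype.mem_piFinset] at h1
      exact ⟨h1 i, hπ i⟩) (fun z => ps K z.1 + ps K z.2) _
    (fun π _ => red_well hp hK fun i => ((π i : ℕ) : ℤ))
  refine h.trans (le_of_eq ?_)
  rw [Finset.card_univ, Fintype.card_fun, Fintype.card_fin, Fintype.card_fin, ← mul_assoc,
    ← pow_add, two_mul]

/-- the tuples with `K` different residues -/
theorem red_A {m K P p : ℕ} (hp : p.Prime) (hK : K < p) (ι : Fin K → Fin (K + m))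
    (T : Finset (Fin (K + m) → ℤ)) (hT : ∀ x ∈ T, x ∈ box (K + m) (Finset.Icc 1 (P : ℤ)) ∧
      ∀ i j, i ≠ j → ¬ (p : ℤ) ∣ x (ι i) - x (ι j)) :
    coll T (ps K) ≤ p ^ (2 * m) * (P ^ K * (K.factorial * p ^ (K * (K - 1) / 2)) *
      (P / p ^ K + 1) ^ K * J m K (P / p + 1)) := by
  classical
  refine le_trans ?_ (red_W hp hK)
  by_cases hι : Function.Injective ι
  · obtain ⟨e, he⟩ := red_equiv ι hι
    have hps : ∀ x : Fin (K + m) → ℤ, ps K (fun i => x (e (Sum.inl i))) +
        ps K (fun j => x (e (Sum.inr j))) = ps K x := by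
      intro x
      unfold ps
      rw [← Equiv.sum_comp e, Fintype.sum_sum_type]
    refine coll_le_of_inj _ _ _ _
      (fun x => (fun i => x (e (Sum.inl i)), fun j => x (e (Sum.inr j)))) ?_ ?_ ?_
    · intro x hx
      obtain ⟨h1, h2⟩ := hT x hx
      unfold box at h1
      rw [Fintype.mem_piFinset] at h1
      rw [Finset.mem_product]
      constructor
      · unfold well
        rw [Finset.mem_filter]
        refine ⟨?_, ?_⟩
        · unfold box
          rw [Fintype.mem_piFinset]
          exact fun i => h1 _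
        · intro i j hij
          show ¬ (p : ℤ) ∣ x (e (Sum.inl i)) - x (e (Sum.inl j))
          rw [he, he]
          exact h2 i j hij
      · unfold box
        rw [Fintype.mem_piFinset]
        exact fun i => h1 _
    · intro x _ x' _ h
      have h1 := congrArg Prod.fst h
      have h2 := congrArg Prod.snd h
      funext k
      obtain ⟨t, rfl⟩ := e.surjective k
      rcases t with i | j
      · exact congrFun h1 i
      · exact congrFun h2 j
    · intro x _ x' _ h
      show ps K (fun i => x (e (Sum.inl i))) + ps K (fun j => x (e (Sum.inr j))) =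
        ps K (fun i => x' (e (Sum.inl i))) + ps K (fun j => x' (e (Sum.inr j)))
      rw [hps, hps]
      exact h
  · have hemp : T = ∅ := by
      rw [Finset.eq_empty_iff_forall_notMem]
      intro x hx
      unfold Function.Injective at hι
      push Not at hι
      obtain ⟨i, j, hij, hne⟩ := hι
      apply (hT x hx).2 i j hne
      rw [hij, sub_self]
      exact dvd_zero _
    rw [hemp]
    simp [coll]

/-- few residues: a description by two maps -/
theorem red_few {s K p : ℕ} (hK2 : 2 ≤ K) (hp : 0 < p) (r : Fin s → Fin p)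
    (h : ¬ ∃ ι : Fin K → Fin s, ∀ i j, i ≠ j → r (ι i) ≠ r (ι j)) :
    ∃ (c : Fin (K - 1) → Fin p) (d : Fin s → Fin (K - 1)), ∀ i, c (d i) = r i := by
  classical
  have hcard : (Finset.univ.image r).card ≤ K - 1 := by
    by_contra hlt
    push Not at hlt
    apply h
    have h1 : K ≤ (Finset.univ.image r).card := by omega
    obtain ⟨t, ht, htc⟩ := Finset.exists_subset_card_eq h1
    let e := (Finset.equivFinOfCardEq htc).symm
    have h2 : ∀ i : Fin K, ∃ k, r k = (e i : Fin p) := by
      intro i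
      have := ht (e i).2
      rw [Finset.mem_image] at this
      obtain ⟨k, _, hk⟩ := this
      exact ⟨k, hk⟩
    choose ι hι using h2
    refine ⟨ι, fun i j hij => ?_⟩
    rw [hι, hι]
    intro h3
    exact hij (e.injective (Subtype.ext h3))
  have hne : Nonempty (Fin p) := ⟨⟨0, hp⟩⟩
  -- a surjection
  have h1 : Fintype.card ↥(Finset.univ.image r) ≤ Fintype.card (Fin (K - 1)) := by
    rw [Fintype.card_coe, Fintype.card_fin]
    exact hcard
  obtain ⟨g⟩ := Function.Embedding.nonempty_of_card_le h1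
  refine ⟨fun k => if hk : ∃ z, g z = k then (hk.choose : Fin p) else ⟨0, hp⟩,
    fun i => g ⟨r i, Finset.mem_image_of_mem r (Finset.mem_univ i)⟩, fun i => ?_⟩
  have hex : ∃ z, g z = g ⟨r i, Finset.mem_image_of_mem r (Finset.mem_univ i)⟩ := ⟨_, rfl⟩
  refine (dif_pos hex).trans ?_
  rw [g.injective hex.choose_spec]

theorem J_red (m K P p : ℕ) (hp : p.Prime) (hK2 : 2 ≤ K) (hK : K < p) :
    J (K + m) K P ≤
      2 * ((K + m) ^ (2 * K) * (p ^ (2 * m) *
        (P ^ K * (K.factorial * p ^ (K * (K - 1) / 2)) * (P / p ^ K + 1) ^ K * J m K (P / p + 1))))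
      + 2 * ((p ^ (K - 1) * K ^ (K + m)) ^ 2 * J (K + m) K (P / p + 1)) := by
  classical
  set T := box (K + m) (Finset.Icc 1 (P : ℤ)) with hT
  set TA := T.filter fun x => ∃ ι : Fin K → Fin (K + m), ∀ i j, i ≠ j →
    ¬ (p : ℤ) ∣ x (ι i) - x (ι j) with hTA
  set TB := T.filter fun x => ¬ ∃ ι : Fin K → Fin (K + m), ∀ i j, i ≠ j →
    ¬ (p : ℤ) ∣ x (ι i) - x (ι j) with hTB
  have h0 : J (K + m) K P ≤ 2 * coll TA (ps K) + 2 * coll TB (ps K) := by
    have h1 := coll_le_biUnion (Finset.univ : Finset Bool) T (fun b => if b then TA else TB) (by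
      intro x hx
      by_cases h : ∃ ι : Fin K → Fin (K + m), ∀ i j, i ≠ j → ¬ (p : ℤ) ∣ x (ι i) - x (ι j)
      · exact ⟨true, Finset.mem_univ _, by
          rw [if_pos rfl]
          exact Finset.mem_filter.2 ⟨hx, h⟩⟩
      · exact ⟨false, Finset.mem_univ _, by
          rw [if_neg (by simp)]
          exact Finset.mem_filter.2 ⟨hx, h⟩⟩) (ps K)
    rw [Fintype.sum_bool, Finset.card_univ, Fintype.card_bool, if_pos rfl, if_neg (by simp),
      mul_add] at h1
    exact h1
  have hA : coll TA (ps K) ≤ (K + m) ^ (2 * K) * (p ^ (2 * m) *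
        (P ^ K * (K.factorial * p ^ (K * (K - 1) / 2)) * (P / p ^ K + 1) ^ K *
          J m K (P / p + 1))) := by
    have h1 := red_union (Finset.univ : Finset (Fin K → Fin (K + m))) TA
      (fun ι => T.filter fun x => ∀ i j, i ≠ j → ¬ (p : ℤ) ∣ x (ι i) - x (ι j)) (by
        intro x hx
        rw [hTA, Finset.mem_filter] at hx
        obtain ⟨hx, ι, hι⟩ := hx
        exact ⟨ι, Finset.mem_univ _, Finset.mem_filter.2 ⟨hx, hι⟩⟩) (ps K) _
      (fun ι _ => red_A hp hK ι _ fun x hx => Finset.mem_filter.1 hx)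
    refine h1.trans (le_of_eq ?_)
    rw [Finset.card_univ, Fintype.card_fun, Fintype.card_fin, Fintype.card_fin, ← mul_assoc,
      ← pow_add, ← two_mul K]
  have hB : coll TB (ps K) ≤ (p ^ (K - 1) * K ^ (K + m)) ^ 2 * J (K + m) K (P / p + 1) := by
    have h1 := red_union
      (Finset.univ : Finset ((Fin (K - 1) → Fin p) × (Fin (K + m) → Fin (K - 1)))) TB
      (fun cd => Fintype.piFinset fun i => cls P p (((cd.1 (cd.2 i) : Fin p) : ℕ) : ℤ)) (by
        intro x hx
        rw [hTB, Finset.mem_filter] at hx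
        obtain ⟨hx, hno⟩ := hx
        choose r hr using fun i => red_res hp.pos (x i)
        obtain ⟨c, d, hcd⟩ := red_few hK2 hp.pos r (by
          rintro ⟨ι, hι⟩
          apply hno
          refine ⟨ι, fun i j hij hdvd => ?_⟩
          apply hι i j hij
          apply Fin.ext
          have h2 : (p : ℤ) ∣ ((r (ι i) : ℕ) : ℤ) - ((r (ι j) : ℕ) : ℤ) := by
            have h3 := dvd_add (dvd_sub hdvd (hr (ι i))) (hr (ι j))
            have h4 : x (ι i) - x (ι j) - (x (ι i) - ((r (ι i) : ℕ) : ℤ)) +
                (x (ι j) - ((r (ι j) : ℕ) : ℤ)) =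
                ((r (ι i) : ℕ) : ℤ) - ((r (ι j) : ℕ) : ℤ) := by ring
            rwa [h4] at h3
          have h6 : ((r (ι i) : ℕ) : ℤ) = ((r (ι j) : ℕ) : ℤ) := by
            have h7 := (r (ι i)).2
            have h8 := (r (ι j)).2
            obtain ⟨w, hw⟩ := h2
            have hp0 : (0 : ℤ) < p := by exact_mod_cast hp.pos
            have hw0 : w = 0 := by
              by_contra hne
              rcases lt_or_gt_of_ne hne with hlt | hgt
              · have : (p : ℤ) * w ≤ (p : ℤ) * (-1) := by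
                  apply mul_le_mul_of_nonneg_left _ hp0.le
                  omega
                omega
              · have : (p : ℤ) * 1 ≤ (p : ℤ) * w := by
                  apply mul_le_mul_of_nonneg_left _ hp0.le
                  omega
                omega
            rw [hw0, mul_zero] at hw
            omega
          exact_mod_cast h6)
        refine ⟨(c, d), Finset.mem_univ _, ?_⟩
        rw [Fintype.mem_piFinset]
        intro i
        rw [red_mem_cls]
        rw [hT] at hx
        unfold box at hx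
        rw [Fintype.mem_piFinset] at hx
        refine ⟨hx i, ?_⟩
        show (p : ℤ) ∣ x i - ((c (d i) : ℕ) : ℤ)
        rw [hcd]
        exact hr i) (ps K) _
      (fun cd _ => red_pi (by omega) hp.pos fun i => (((cd.1 (cd.2 i) : Fin p) : ℕ) : ℤ))
    refine h1.trans ?_
    rw [Finset.card_univ, Fintype.card_prod, Fintype.card_fun, Fintype.card_fun, Fintype.card_fin,
      Fintype.card_fin, Fintype.card_fin, ← mul_assoc, ← sq]
    refine Nat.mul_le_mul_right _ ?_
    refine Nat.pow_le_pow_left (Nat.mul_le_mul_left _ ?_) 2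
    exact Nat.pow_le_pow_left (by omega) _
  exact h0.trans (Nat.add_le_add (Nat.mul_le_mul_left 2 hA) (Nat.mul_le_mul_left 2 hB))

end MP14ee70.TY.V
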