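import Mathlib
import Pool.Agent.Lib.MP_14ee70_nt.TY.V.Red

/-!
# Project TY, file V/Ind: Vinogradov's mean value theorem in the form of Linnik and Karatsuba

Proof.  Put `Δ(t) = Del K t`; `Δ(t+1) = (K+1)/2 + (1 - 1/K) Δ(t)`, `Δ(0) = 0`, `0 ≤ Δ(t) ≤ K(K+1)/2`, `Δ(t) ≤ t (K+1)/2`.
`P0 = (8 (2K)^4)^K`.  Claim for `t ≥ 1`, `t ≤ 9 K`, all `P ≥ 1`, `s = K t`:
    `J s K P ≤ E_t P^(2 s - Δ(t))`,  `E_t = exp (C1 K^2 t + C2 K^3 log (K+1))`.
`t = 1`: `J_base`, `K! P^K ≤ K! P^(2K - Δ(1))` as `Δ(1) = (K+1)/2 ≤ K`.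
Step `t - 1 → t` (`t ≥ 2`), strong induction on `P`.
* `P < P0`: `J ≤ P^(2s) ≤ P^(2s - Δ) P0^(K(K+1)/2)` and `log P0 ≤ C K log (K+1)`.
* `P ≥ P0`: let `b = P^(1/K)` (real), `b ≥ 8 (2K)^4`; Bertrand (`Nat.exists_prime_lt_and_le_two_mul`) for `n = ⌊b/2⌋`:
  a prime `p` with `b/2 < p ≤ b`; `p ≥ 4 (2K)^4 > K`, `p^K ≤ P`, `P < (2p)^K`, `P/p^K + 1 ≤ 2 P/p^K ≤ 2^(K+1)`,
  `P1 = P/p + 1 ≤ 2P/p`, `P1 < P`.  Use `J_red` with `m = s - K = K (t-1)`: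
  A-term: `2 s^(2K) p^(2m) P^K K! p^(K(K-1)/2) 2^((K+1)K) J m K P1`, and
  `J m K P1 ≤ E_(t-1) (2P/p)^(2m - Δ(t-1))` (note `2 m - Δ(t-1) ≥ 0`).  Power of `p`: `K(K-1)/2 + Δ(t-1) ≥ 0`, and
  `p ≤ P^(1/K)`: `p^(..) ≤ P^((K-1)/2 + Δ(t-1)/K)`.  Total exponent of `P`:
  `K + 2m - Δ(t-1) + (K-1)/2 + Δ(t-1)/K = 2s - (K+1)/2 - (1-1/K) Δ(t-1) = 2s - Δ(t)`.
  Constant: `2 s^(2K) K! 2^(K(K+1)) 2^(2m) E_(t-1) ≤ E_t / 2` as `s ≤ 9K^2`, `C1` large.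
  B-term: induction on `P`: `J s K P1 ≤ E_t (2P/p)^(2s - Δ)`; with `e = 2s - Δ(t) - 2K + 2 ≥ t K / 2` (for `t ≥ 2`,
  since `Δ(t) ≤ t (K+1)/2` and `t (2K-1)/2 ≥ 2K - 2`):
  `2 (p^(K-1) K^s)^2 (2/p)^(2s - Δ) = 2 K^(2s) 2^(2s - Δ) p^(-e) ≤ 2 (2K)^(2s) (4 (2K)^4)^(-tK/2)
   ≤ 2 · 4^(-tK/2) ≤ 1/8`.
-/

namespace MP14ee70.TY.V

open Finset

/-- Facts on `Δ`. -/
theorem Del_succ (K t : ℕ) (hK : 1 ≤ K) :
    Del K (t + 1) = ((K : ℝ) + 1) / 2 + (1 - 1 / (K : ℝ)) * Del K t := by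
  have hK0 : (K : ℝ) ≠ 0 := by positivity
  unfold Del
  rw [pow_succ]
  field_simp
  ring

theorem one_sub_mem (K : ℕ) : 0 ≤ 1 - 1 / (K : ℝ) ∧ 1 - 1 / (K : ℝ) ≤ 1 := by
  rcases Nat.eq_zero_or_pos K with rfl | hK
  · simp
  · have h1 : (1 : ℝ) ≤ K := by exact_mod_cast hK
    have h2 : 1 / (K : ℝ) ≤ 1 := by rw [div_le_one (by linarith)]; exact h1
    have h3 : 0 ≤ 1 / (K : ℝ) := by positivity
    constructor <;> linarith

theorem Del_nonneg (K t : ℕ) : 0 ≤ Del K t := by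
  have h := one_sub_mem K
  have h1 : (1 - 1 / (K : ℝ)) ^ t ≤ 1 := pow_le_one₀ h.1 h.2
  unfold Del
  exact mul_nonneg (by positivity) (by linarith)

theorem Del_le (K t : ℕ) : Del K t ≤ (K : ℝ) * (K + 1) / 2 := by
  have h := one_sub_mem K
  have h1 : 0 ≤ (1 - 1 / (K : ℝ)) ^ t := pow_nonneg h.1 t
  have h2 : (0 : ℝ) ≤ (K : ℝ) * (K + 1) / 2 := by positivity
  unfold Del
  nlinarith

theorem Del_le' (K t : ℕ) : Del K t ≤ t * ((K : ℝ) + 1) / 2 := by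
  rcases Nat.eq_zero_or_pos K with rfl | hK
  · simp only [Del, Nat.cast_zero, zero_mul, zero_div]
    positivity
  · have hK0 : (0 : ℝ) < K := by exact_mod_cast hK
    have h := one_sub_mem K
    have h1 : 1 + (t : ℝ) * (-(1 / (K : ℝ))) ≤ (1 + -(1 / (K : ℝ))) ^ t :=
      one_add_mul_le_pow (by linarith [h.1]) t
    have h2 : 1 - (1 - 1 / (K : ℝ)) ^ t ≤ t * (1 / (K : ℝ)) := by
      have : 1 + -(1 / (K : ℝ)) = 1 - 1 / (K : ℝ) := by ring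
      rw [this] at h1
      linarith
    unfold Del
    calc (K : ℝ) * (K + 1) / 2 * (1 - (1 - 1 / (K : ℝ)) ^ t)
        ≤ (K : ℝ) * (K + 1) / 2 * (t * (1 / (K : ℝ))) :=
          mul_le_mul_of_nonneg_left h2 (by positivity)
      _ = t * ((K : ℝ) + 1) / 2 := by field_simp

/-- The loss after `9 K` steps: `K(K+1)/2 - Δ(9K) ≤ e^(-9) K(K+1)/2`. -/
theorem Del_9K (K : ℕ) (hK : 1 ≤ K) :
    (K : ℝ) * (K + 1) / 2 - Del K (9 * K) ≤ Real.exp (-9) * ((K : ℝ) * (K + 1) / 2) := by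
  have hK0 : (0 : ℝ) < K := by exact_mod_cast hK
  have h := one_sub_mem K
  have h1 : (1 - 1 / (K : ℝ)) ^ (9 * K) ≤ Real.exp (-9) := by
    have h2 : 1 - 1 / (K : ℝ) ≤ Real.exp (-(1 / (K : ℝ))) := Real.one_sub_le_exp_neg _
    calc (1 - 1 / (K : ℝ)) ^ (9 * K) ≤ Real.exp (-(1 / (K : ℝ))) ^ (9 * K) :=
          pow_le_pow_left₀ h.1 h2 _
      _ = Real.exp (-9) := by
          rw [← Real.exp_nat_mul]
          congr 1
          push_cast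
          field_simp
  have h2 : (0 : ℝ) ≤ (K : ℝ) * (K + 1) / 2 := by positivity
  unfold Del
  nlinarith

/-! ### Numerical facts -/

theorem num_const (K t : ℕ) (hK : 2 ≤ K) (ht : t + 1 ≤ 9 * K) :
    4 * ((K + K * t) ^ (2 * K) * (K.factorial * (2 ^ ((K + 1) * K) * 2 ^ (2 * (K * t))))) ≤
      (K + 1) ^ (25 * K ^ 2) := by
  have hM : 3 ≤ K + 1 := by omega
  have h2 : 2 ≤ K + 1 := by omega
  have h4 : 4 ≤ (K + 1) ^ 2 := by nlinarith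
  have hs : K + K * t ≤ (K + 1) ^ 4 := by
    have h9 : 9 ≤ (K + 1) ^ 2 := by nlinarith
    have h5 : K + K * t ≤ 9 * K ^ 2 := by nlinarith
    have h6 : K ^ 2 ≤ (K + 1) ^ 2 := Nat.pow_le_pow_left (by omega) 2
    calc K + K * t ≤ 9 * K ^ 2 := h5
      _ ≤ (K + 1) ^ 2 * (K + 1) ^ 2 := Nat.mul_le_mul h9 h6
      _ = (K + 1) ^ 4 := by ring
  have hf : K.factorial ≤ (K + 1) ^ K :=
    (Nat.factorial_le_pow K).trans (Nat.pow_le_pow_left (by omega) K)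
  have ht2 : 2 * (K * t) ≤ 18 * K ^ 2 := by nlinarith
  calc 4 * ((K + K * t) ^ (2 * K) * (K.factorial * (2 ^ ((K + 1) * K) * 2 ^ (2 * (K * t)))))
      ≤ (K + 1) ^ 2 * (((K + 1) ^ 4) ^ (2 * K) * ((K + 1) ^ K * ((K + 1) ^ ((K + 1) * K) *
          (K + 1) ^ (18 * K ^ 2)))) := by
        refine Nat.mul_le_mul h4 (Nat.mul_le_mul (Nat.pow_le_pow_left hs _)
          (Nat.mul_le_mul hf (Nat.mul_le_mul (Nat.pow_le_pow_left h2 _) ?_)))
        exact (Nat.pow_le_pow_left h2 _).trans (Nat.pow_le_pow_right (by omega) ht2)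
    _ = (K + 1) ^ (2 + (4 * (2 * K) + (K + ((K + 1) * K + 18 * K ^ 2)))) := by
        rw [← pow_mul, ← pow_add, ← pow_add, ← pow_add, ← pow_add]
    _ ≤ (K + 1) ^ (25 * K ^ 2) := by
        refine Nat.pow_le_pow_right (by omega) ?_
        nlinarith

theorem num_P0 (K : ℕ) (hK : 2 ≤ K) : (8 * (2 * K) ^ 4) ^ K ≤ (K + 1) ^ (9 * K) := by
  have h1 : 8 * (2 * K) ^ 4 ≤ (K + 1) ^ 9 := by
    have h3 : 3 ^ 5 ≤ (K + 1) ^ 5 := Nat.pow_le_pow_left (by omega) 5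
    have h4 : K ^ 4 ≤ (K + 1) ^ 4 := Nat.pow_le_pow_left (by omega) 4
    calc 8 * (2 * K) ^ 4 = 128 * K ^ 4 := by ring
      _ ≤ (K + 1) ^ 5 * (K + 1) ^ 4 := Nat.mul_le_mul (by omega) h4
      _ = (K + 1) ^ 9 := by ring
  calc (8 * (2 * K) ^ 4) ^ K ≤ ((K + 1) ^ 9) ^ K := Nat.pow_le_pow_left h1 K
    _ = (K + 1) ^ (9 * K) := by rw [← pow_mul]

/-- the prime of the induction step -/
theorem exists_p (K P : ℕ) (hK : 2 ≤ K) (hP : (8 * (2 * K) ^ 4) ^ K ≤ P) :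
    ∃ p : ℕ, p.Prime ∧ 4 * (2 * K) ^ 4 < p ∧ (p : ℝ) ≤ (P : ℝ) ^ (1 / (K : ℝ)) ∧ p ^ K ≤ P ∧
      P < (2 * p) ^ K := by
  have hK0 : (K : ℝ) ≠ 0 := by positivity
  set b : ℝ := (P : ℝ) ^ (1 / (K : ℝ)) with hb
  have hb0 : 0 ≤ b := by positivity
  have hbK : b ^ K = P := by
    rw [hb, ← Real.rpow_natCast, ← Real.rpow_mul (by positivity), one_div_mul_cancel hK0,
      Real.rpow_one]
  have hb8 : ((8 * (2 * K) ^ 4 : ℕ) : ℝ) ≤ b := by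
    by_contra h
    push Not at h
    have h1 : b ^ K < ((8 * (2 * K) ^ 4 : ℕ) : ℝ) ^ K := pow_lt_pow_left₀ h hb0 (by omega)
    rw [hbK] at h1
    have h2 : P < (8 * (2 * K) ^ 4) ^ K := by exact_mod_cast h1
    omega
  set n := ⌊b / 2⌋₊ with hn
  have hn4 : 4 * (2 * K) ^ 4 ≤ n := by
    refine Nat.le_floor ?_
    push_cast at hb8 ⊢
    linarith
  have hpos : 0 < 4 * (2 * K) ^ 4 := by positivity
  obtain ⟨p, hp, hnp, hp2⟩ := Nat.exists_prime_lt_and_le_two_mul n (by omega)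
  have hpb : (p : ℝ) ≤ b := by
    have h1 : (n : ℝ) ≤ b / 2 := Nat.floor_le (by positivity)
    have h2 : (p : ℝ) ≤ 2 * n := by exact_mod_cast hp2
    linarith
  have hpb' : b < 2 * p := by
    have h1 : b / 2 < n + 1 := Nat.lt_floor_add_one _
    have h2 : (n : ℝ) + 1 ≤ p := by exact_mod_cast hnp
    linarith
  refine ⟨p, hp, by omega, hpb, ?_, ?_⟩
  · have h1 : (p : ℝ) ^ K ≤ b ^ K := pow_le_pow_left₀ (by positivity) hpb K
    rw [hbK] at h1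
    exact_mod_cast h1
  · have h1 : b ^ K < (2 * (p : ℝ)) ^ K := pow_lt_pow_left₀ hpb' hb0 (by omega)
    rw [hbK] at h1
    exact_mod_cast h1

/-- exponent of the constant -/
def ee (K t : ℕ) : ℕ := 25 * K ^ 2 * t + 9 * K ^ 3

/-- the two terms of the reduction inequality -/
theorem num_A (K t P p P1 q Jm : ℕ) (hK : 2 ≤ K) (ht : 1 ≤ t) (ht9 : t + 1 ≤ 9 * K)
    (hp : 1 ≤ p) (hP : 1 ≤ P) (hpP : (p : ℝ) ≤ (P : ℝ) ^ (1 / (K : ℝ)))
    (hP1 : (P1 : ℝ) ≤ 2 * P / p) (hq : q ≤ 2 ^ (K + 1))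
    (hJ : (Jm : ℝ) ≤ ((K + 1 : ℕ) : ℝ) ^ ee K t *
      (P1 : ℝ) ^ (2 * ((K * t : ℕ) : ℝ) - Del K t)) :
    ((2 * ((K + K * t) ^ (2 * K) * (p ^ (2 * (K * t)) *
        (P ^ K * (K.factorial * p ^ (K * (K - 1) / 2)) * q ^ K * Jm))) : ℕ) : ℝ) ≤
      1 / 2 * (((K + 1 : ℕ) : ℝ) ^ ee K (t + 1) *
        (P : ℝ) ^ (2 * ((K * (t + 1) : ℕ) : ℝ) - Del K (t + 1))) := by
  have hK0 : (K : ℝ) ≠ 0 := by positivity
  have hKp : (0 : ℝ) < K := by positivity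
  have hp0 : (0 : ℝ) < p := by exact_mod_cast hp
  have hp1 : (1 : ℝ) ≤ p := by exact_mod_cast hp
  have hP0 : (0 : ℝ) < P := by exact_mod_cast hP
  set Δ := Del K t with hΔ
  have hΔ0 : 0 ≤ Δ := Del_nonneg K t
  have hΔ1 : Δ ≤ t * ((K : ℝ) + 1) / 2 := Del_le' K t
  have hK1 : (2 : ℝ) ≤ K := by exact_mod_cast hK
  have ht1 : (1 : ℝ) ≤ t := by exact_mod_cast ht
  set a : ℝ := 2 * ((K * t : ℕ) : ℝ) - Δ with ha
  have ha0 : 0 ≤ a := by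
    rw [ha]; push_cast
    nlinarith
  have ha2 : a ≤ 2 * ((K * t : ℕ) : ℝ) := by rw [ha]; linarith
  -- the bound for `Jm`
  have h1 : (P1 : ℝ) ^ a ≤ 2 ^ (2 * (K * t)) * (P : ℝ) ^ a * (p : ℝ) ^ (-a) := by
    calc (P1 : ℝ) ^ a ≤ (2 * P / p : ℝ) ^ a := Real.rpow_le_rpow (by positivity) hP1 ha0
      _ = (2 : ℝ) ^ a * (P : ℝ) ^ a * (p : ℝ) ^ (-a) := by
          rw [Real.div_rpow (by positivity) (by positivity), Real.mul_rpow (by positivity)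
            (by positivity), Real.rpow_neg (by positivity)]
          rfl
      _ ≤ 2 ^ (2 * (K * t)) * (P : ℝ) ^ a * (p : ℝ) ^ (-a) := by
          have h2 : (2 : ℝ) ^ a ≤ 2 ^ (2 * (K * t)) := by
            rw [← Real.rpow_natCast]
            refine Real.rpow_le_rpow_of_exponent_le one_le_two ?_
            push_cast at ha2 ⊢
            exact ha2
          gcongr
  -- the powers of `p`
  have h2 : (p : ℝ) ^ (2 * (K * t)) * (p : ℝ) ^ (K * (K - 1) / 2) * (p : ℝ) ^ (-a) ≤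
      (P : ℝ) ^ (((K : ℝ) - 1) / 2 + Δ / K) := by
    have h3 : ((K * (K - 1) / 2 : ℕ) : ℝ) ≤ (K : ℝ) * (K - 1) / 2 := by
      have h4 : ((K * (K - 1) / 2 : ℕ) : ℝ) ≤ ((K * (K - 1) : ℕ) : ℝ) / (2 : ℕ) := Nat.cast_div_le
      have h5 : ((K - 1 : ℕ) : ℝ) = (K : ℝ) - 1 := by
        rw [Nat.cast_sub (by omega)]; simp
      push_cast at h4
      rw [h5] at h4
      exact h4
    rw [← Real.rpow_natCast, ← Real.rpow_natCast, ← Real.rpow_add hp0, ← Real.rpow_add hp0]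
    calc (p : ℝ) ^ (((2 * (K * t) : ℕ) : ℝ) + ((K * (K - 1) / 2 : ℕ) : ℝ) + -a)
        ≤ (p : ℝ) ^ ((K : ℝ) * (K - 1) / 2 + Δ) := by
          refine Real.rpow_le_rpow_of_exponent_le hp1 ?_
          rw [ha]
          push_cast at h3 ⊢
          linarith
      _ ≤ ((P : ℝ) ^ (1 / (K : ℝ))) ^ ((K : ℝ) * (K - 1) / 2 + Δ) := by
          refine Real.rpow_le_rpow hp0.le hpP ?_
          have : 0 ≤ (K : ℝ) * (K - 1) / 2 := by
            have : (0 : ℝ) ≤ (K : ℝ) - 1 := by linarith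
            positivity
          linarith
      _ = (P : ℝ) ^ (((K : ℝ) - 1) / 2 + Δ / K) := by
          rw [← Real.rpow_mul hP0.le]
          congr 1
          field_simp
  -- the powers of `P`
  have h3 : (P : ℝ) ^ K * (P : ℝ) ^ a * (P : ℝ) ^ (((K : ℝ) - 1) / 2 + Δ / K) =
      (P : ℝ) ^ (2 * ((K * (t + 1) : ℕ) : ℝ) - Del K (t + 1)) := by
    rw [← Real.rpow_natCast, ← Real.rpow_add hP0, ← Real.rpow_add hP0]
    congr 1
    rw [Del_succ K t (by omega), ← hΔ, ha]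
    push_cast
    field_simp
    ring
  -- constants
  have h4 : (4 : ℝ) * ((K + K * t : ℝ) ^ (2 * K) * (K.factorial * (2 ^ ((K + 1) * K) *
      2 ^ (2 * (K * t))))) ≤ ((K : ℝ) + 1) ^ (25 * K ^ 2) := by
    exact_mod_cast num_const K t hK ht9
  have hq' : (q : ℝ) ^ K ≤ 2 ^ ((K + 1) * K) := by
    rw [pow_mul]
    refine pow_le_pow_left₀ (by positivity) ?_ K
    exact_mod_cast hq
  have h5 : (Jm : ℝ) ≤ ((K : ℝ) + 1) ^ ee K t *
      (2 ^ (2 * (K * t)) * (P : ℝ) ^ a * (p : ℝ) ^ (-a)) := by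
    push_cast at hJ
    refine hJ.trans ?_
    gcongr
  have hee : ee K (t + 1) = 25 * K ^ 2 + ee K t := by unfold ee; ring
  push_cast
  calc (2 : ℝ) * ((K + K * t : ℝ) ^ (2 * K) * ((p : ℝ) ^ (2 * (K * t)) *
        ((P : ℝ) ^ K * (K.factorial * (p : ℝ) ^ (K * (K - 1) / 2)) * (q : ℝ) ^ K * Jm)))
      ≤ (2 : ℝ) * ((K + K * t : ℝ) ^ (2 * K) * ((p : ℝ) ^ (2 * (K * t)) *
        ((P : ℝ) ^ K * (K.factorial * (p : ℝ) ^ (K * (K - 1) / 2)) * 2 ^ ((K + 1) * K) *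
        (((K : ℝ) + 1) ^ ee K t * (2 ^ (2 * (K * t)) * (P : ℝ) ^ a * (p : ℝ) ^ (-a)))))) := by
        gcongr
    _ = 1 / 2 * (((4 : ℝ) * ((K + K * t : ℝ) ^ (2 * K) * (K.factorial * (2 ^ ((K + 1) * K) *
          2 ^ (2 * (K * t))))) * ((K : ℝ) + 1) ^ ee K t) *
          ((P : ℝ) ^ K * (P : ℝ) ^ a *
            ((p : ℝ) ^ (2 * (K * t)) * (p : ℝ) ^ (K * (K - 1) / 2) * (p : ℝ) ^ (-a)))) := by
        ring
    _ ≤ 1 / 2 * ((((K : ℝ) + 1) ^ (25 * K ^ 2) * ((K : ℝ) + 1) ^ ee K t) *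
          ((P : ℝ) ^ K * (P : ℝ) ^ a * (P : ℝ) ^ (((K : ℝ) - 1) / 2 + Δ / K))) := by
        gcongr
    _ = 1 / 2 * (((K : ℝ) + 1) ^ ee K (t + 1) *
          (P : ℝ) ^ (2 * ((K * (t + 1) : ℕ) : ℝ) - Del K (t + 1))) := by
        rw [h3, hee, pow_add]
    _ = _ := by push_cast; rfl

theorem num_B (K t P p P1 Js : ℕ) (hK : 2 ≤ K) (ht : 1 ≤ t)
    (hp : 4 * (2 * K) ^ 4 < p) (hP : 1 ≤ P)
    (hP1 : (P1 : ℝ) ≤ 2 * P / p)
    (hJ : (Js : ℝ) ≤ ((K + 1 : ℕ) : ℝ) ^ ee K (t + 1) *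
      (P1 : ℝ) ^ (2 * ((K * (t + 1) : ℕ) : ℝ) - Del K (t + 1))) :
    ((2 * ((p ^ (K - 1) * K ^ (K + K * t)) ^ 2 * Js) : ℕ) : ℝ) ≤
      1 / 2 * (((K + 1 : ℕ) : ℝ) ^ ee K (t + 1) *
        (P : ℝ) ^ (2 * ((K * (t + 1) : ℕ) : ℝ) - Del K (t + 1))) := by
  have hKp : (0 : ℝ) < K := by positivity
  have hp' : 1 ≤ p := by omega
  have hp0 : (0 : ℝ) < p := by exact_mod_cast hp'
  have hp1 : (1 : ℝ) ≤ p := by exact_mod_cast hp'
  have hP0 : (0 : ℝ) < P := by exact_mod_cast hP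
  set Δ := Del K (t + 1) with hΔ
  have hΔ0 : 0 ≤ Δ := Del_nonneg K _
  have hΔ1 : Δ ≤ ((t + 1 : ℕ) : ℝ) * ((K : ℝ) + 1) / 2 := Del_le' K (t + 1)
  have hK1 : (2 : ℝ) ≤ K := by exact_mod_cast hK
  have ht1 : (1 : ℝ) ≤ t := by exact_mod_cast ht
  set a : ℝ := 2 * ((K * (t + 1) : ℕ) : ℝ) - Δ with ha
  have ha1 : a = 2 * (K * (t + 1)) - Δ := by rw [ha]; push_cast; ring
  push_cast at hΔ1
  have ha0 : 0 ≤ a := by
    rw [ha1]
    nlinarith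
  have ha2 : a ≤ 2 * (K * (t + 1)) := by rw [ha1]; linarith
  have h1 : (P1 : ℝ) ^ a ≤ 2 ^ (2 * (K * (t + 1))) * (P : ℝ) ^ a * (p : ℝ) ^ (-a) := by
    calc (P1 : ℝ) ^ a ≤ (2 * P / p : ℝ) ^ a := Real.rpow_le_rpow (by positivity) hP1 ha0
      _ = (2 : ℝ) ^ a * (P : ℝ) ^ a * (p : ℝ) ^ (-a) := by
          rw [Real.div_rpow (by positivity) (by positivity), Real.mul_rpow (by positivity)
            (by positivity), Real.rpow_neg (by positivity)]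
          rfl
      _ ≤ 2 ^ (2 * (K * (t + 1))) * (P : ℝ) ^ a * (p : ℝ) ^ (-a) := by
          have h2 : (2 : ℝ) ^ a ≤ 2 ^ (2 * (K * (t + 1))) := by
            rw [← Real.rpow_natCast]
            refine Real.rpow_le_rpow_of_exponent_le one_le_two ?_
            push_cast
            exact ha2
          gcongr
  -- the gain
  have h2 : 4 * ((2 * (K : ℝ)) ^ (2 * (K * (t + 1))) * (p : ℝ) ^ (2 * (K - 1))) ≤ (p : ℝ) ^ a := by
    have h3 : (p : ℝ) ^ a = (p : ℝ) ^ (a - 2 * (K - 1)) * (p : ℝ) ^ (2 * (K - 1)) := by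
      rw [← Real.rpow_natCast, ← Real.rpow_add hp0]
      congr 1
      rw [Nat.cast_mul, Nat.cast_sub (by omega)]
      push_cast
      ring
    rw [h3, ← mul_assoc]
    refine mul_le_mul_of_nonneg_right ?_ (by positivity)
    have h4 : ((K : ℝ) * (t + 1)) / 2 ≤ a - 2 * (K - 1) := by
      rw [ha1]
      nlinarith
    have h5 : ((2 * (2 * (K : ℝ)) ^ 2) ^ 2 : ℝ) ≤ p := by
      have : ((4 * (2 * K) ^ 4 : ℕ) : ℝ) ≤ p := by exact_mod_cast hp.le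
      push_cast at this
      calc ((2 * (2 * (K : ℝ)) ^ 2) ^ 2 : ℝ) = 4 * (2 * K) ^ 4 := by ring
        _ ≤ p := this
    calc 4 * (2 * (K : ℝ)) ^ (2 * (K * (t + 1)))
        ≤ 2 ^ (K * (t + 1)) * (2 * (K : ℝ)) ^ (2 * (K * (t + 1))) := by
          have h6 : (4 : ℝ) ≤ 2 ^ (K * (t + 1)) := by
            have h7 : 2 ≤ K * (t + 1) := by nlinarith
            calc (4 : ℝ) = 2 ^ 2 := by norm_num
              _ ≤ 2 ^ (K * (t + 1)) := pow_le_pow_right₀ (by norm_num) h7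
          gcongr
      _ = (2 * (2 * (K : ℝ)) ^ 2) ^ (K * (t + 1)) := by
          rw [mul_pow (2 : ℝ) ((2 * (K : ℝ)) ^ 2), ← pow_mul]
      _ = ((2 * (2 * (K : ℝ)) ^ 2) ^ 2) ^ (((K : ℝ) * (t + 1)) / 2) := by
          rw [← Real.rpow_natCast (2 * (2 * (K : ℝ)) ^ 2) 2, ← Real.rpow_mul (by positivity),
            ← Real.rpow_natCast (2 * (2 * (K : ℝ)) ^ 2) (K * (t + 1))]
          congr 1
          push_cast
          ring
      _ ≤ (p : ℝ) ^ (((K : ℝ) * (t + 1)) / 2) :=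
          Real.rpow_le_rpow (by positivity) h5 (by positivity)
      _ ≤ (p : ℝ) ^ (a - 2 * (K - 1)) := Real.rpow_le_rpow_of_exponent_le hp1 h4
  have h3 : (p : ℝ) ^ a * (p : ℝ) ^ (-a) = 1 := by
    rw [← Real.rpow_add hp0, add_neg_cancel, Real.rpow_zero]
  have h5 : (Js : ℝ) ≤ ((K : ℝ) + 1) ^ ee K (t + 1) *
      (2 ^ (2 * (K * (t + 1))) * (P : ℝ) ^ a * (p : ℝ) ^ (-a)) := by
    push_cast at hJ
    refine hJ.trans ?_
    gcongr
  have hs : K + K * t = K * (t + 1) := by ring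
  rw [hs]
  push_cast
  calc (2 : ℝ) * (((p : ℝ) ^ (K - 1) * (K : ℝ) ^ (K * (t + 1))) ^ 2 * Js)
      ≤ 2 * (((p : ℝ) ^ (K - 1) * (K : ℝ) ^ (K * (t + 1))) ^ 2 *
        (((K : ℝ) + 1) ^ ee K (t + 1) *
          (2 ^ (2 * (K * (t + 1))) * (P : ℝ) ^ a * (p : ℝ) ^ (-a)))) := by
        gcongr
    _ = 1 / 2 * ((4 * ((2 * (K : ℝ)) ^ (2 * (K * (t + 1))) * (p : ℝ) ^ (2 * (K - 1)))) *
          (p : ℝ) ^ (-a) * (((K : ℝ) + 1) ^ ee K (t + 1) * (P : ℝ) ^ a)) := by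
        rw [mul_pow (2 : ℝ) (K : ℝ), mul_pow ((p : ℝ) ^ (K - 1)), ← pow_mul, ← pow_mul,
          mul_comm (K - 1) 2, mul_comm (K * (t + 1)) 2]
        ring
    _ ≤ 1 / 2 * ((p : ℝ) ^ a * (p : ℝ) ^ (-a) * (((K : ℝ) + 1) ^ ee K (t + 1) * (P : ℝ) ^ a)) := by
        gcongr
    _ = 1 / 2 * (((K : ℝ) + 1) ^ ee K (t + 1) * (P : ℝ) ^ a) := by rw [h3, one_mul]
    _ = _ := by rw [ha]

theorem vm_step (K t : ℕ) (hK : 2 ≤ K) (ht : 1 ≤ t) (ht9 : t + 1 ≤ 9 * K)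
    (IH : ∀ P : ℕ, 1 ≤ P → (J (K * t) K P : ℝ) ≤
      ((K + 1 : ℕ) : ℝ) ^ ee K t * (P : ℝ) ^ (2 * ((K * t : ℕ) : ℝ) - Del K t)) :
    ∀ P : ℕ, 1 ≤ P → (J (K * (t + 1)) K P : ℝ) ≤
      ((K + 1 : ℕ) : ℝ) ^ ee K (t + 1) *
        (P : ℝ) ^ (2 * ((K * (t + 1) : ℕ) : ℝ) - Del K (t + 1)) := by
  intro P
  induction P using Nat.strong_induction_on with
  | _ P ih =>
  intro hP
  have hP0 : (0 : ℝ) < P := by exact_mod_cast hP
  have hP1 : (1 : ℝ) ≤ P := by exact_mod_cast hP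
  rcases lt_or_ge P ((8 * (2 * K) ^ 4) ^ K) with hlt | hge
  · -- small `P`
    have h1 : (J (K * (t + 1)) K P : ℝ) ≤ (P : ℝ) ^ (2 * (K * (t + 1))) := by
      exact_mod_cast J_le_triv (K * (t + 1)) K P
    have h2 : (P : ℝ) ^ (2 * (K * (t + 1))) = (P : ℝ) ^ Del K (t + 1) *
        (P : ℝ) ^ (2 * ((K * (t + 1) : ℕ) : ℝ) - Del K (t + 1)) := by
      rw [← Real.rpow_add hP0, ← Real.rpow_natCast]
      congr 1
      push_cast
      ring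
    have h3 : (P : ℝ) ^ Del K (t + 1) ≤ ((K + 1 : ℕ) : ℝ) ^ ee K (t + 1) := by
      have h4 : Del K (t + 1) ≤ ((K ^ 2 : ℕ) : ℝ) := by
        have h5 := Del_le K (t + 1)
        have hK1 : (2 : ℝ) ≤ K := by exact_mod_cast hK
        push_cast
        nlinarith
      calc (P : ℝ) ^ Del K (t + 1) ≤ (P : ℝ) ^ ((K ^ 2 : ℕ) : ℝ) :=
            Real.rpow_le_rpow_of_exponent_le hP1 h4
        _ = (P : ℝ) ^ (K ^ 2) := Real.rpow_natCast _ _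
        _ ≤ (((K + 1) ^ (9 * K) : ℕ) : ℝ) ^ (K ^ 2) := by
            refine pow_le_pow_left₀ hP0.le ?_ _
            exact_mod_cast hlt.le.trans (num_P0 K hK)
        _ = ((K + 1 : ℕ) : ℝ) ^ (9 * K ^ 3) := by
            rw [Nat.cast_pow, ← pow_mul]
            congr 1
            ring
        _ ≤ ((K + 1 : ℕ) : ℝ) ^ ee K (t + 1) := by
            refine pow_le_pow_right₀ ?_ ?_
            · exact_mod_cast Nat.le_add_left 1 K
            · unfold ee; exact Nat.le_add_left _ _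
    rw [h2] at h1
    exact h1.trans (mul_le_mul_of_nonneg_right h3 (by positivity))
  · -- large `P`
    obtain ⟨p, hp, hp4, hpP, hpK, hPp⟩ := exists_p K P hK hge
    have hpos : 0 < (2 * K) ^ 4 := by positivity
    have hKp : K < p := by
      have : K ≤ (2 * K) ^ 4 := by
        calc K ≤ 2 * K := by omega
          _ = (2 * K) ^ 1 := (pow_one _).symm
          _ ≤ (2 * K) ^ 4 := Nat.pow_le_pow_right (by omega) (by norm_num)
      omega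
    have hp1 : 1 ≤ p := hp.one_le
    have hpleP : p ≤ P := by
      calc p = p ^ 1 := (pow_one p).symm
        _ ≤ p ^ K := Nat.pow_le_pow_right hp1 (by omega)
        _ ≤ P := hpK
    have hp4' : 4 < p := by omega
    have hP1a : ((P / p + 1 : ℕ) : ℝ) ≤ 2 * P / p := by
      have h1 : ((P / p : ℕ) : ℝ) ≤ (P : ℝ) / p := Nat.cast_div_le
      have h2 : (1 : ℝ) ≤ (P : ℝ) / p := by
        rw [le_div_iff₀ (by exact_mod_cast hp.pos), one_mul]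
        exact_mod_cast hpleP
      push_cast
      have h3 : 2 * (P : ℝ) / p = P / p + P / p := by ring
      rw [h3]
      linarith
    have hP1b : P / p + 1 < P := by
      have h1 : P / p ≤ P / 4 := Nat.div_le_div_left (by omega) (by norm_num)
      omega
    have hq : P / p ^ K + 1 ≤ 2 ^ (K + 1) := by
      have h1 : P / p ^ K < 2 ^ K := by
        rw [Nat.div_lt_iff_lt_mul (pow_pos hp.pos K), ← mul_pow]
        exact hPp
      have h2 : 2 ^ (K + 1) = 2 * 2 ^ K := by rw [pow_succ]; ring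
      have h3 : 1 ≤ 2 ^ K := Nat.one_le_two_pow
      omega
    have hA := num_A K t P p (P / p + 1) (P / p ^ K + 1) (J (K * t) K (P / p + 1)) hK ht ht9 hp1 hP
      hpP hP1a hq (IH _ (Nat.le_add_left 1 _))
    have hB := num_B K t P p (P / p + 1) (J (K * (t + 1)) K (P / p + 1)) hK ht hp4 hP hP1a
      (ih _ hP1b (Nat.le_add_left 1 _))
    have hs : K * (t + 1) = K + K * t := by ring
    have hred := J_red (K * t) K P p hp hK hKp
    have hred' : (J (K * (t + 1)) K P : ℝ) ≤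
        ((2 * ((K + K * t) ^ (2 * K) * (p ^ (2 * (K * t)) *
        (P ^ K * (K.factorial * p ^ (K * (K - 1) / 2)) * (P / p ^ K + 1) ^ K *
          J (K * t) K (P / p + 1)))) : ℕ) : ℝ) +
        ((2 * ((p ^ (K - 1) * K ^ (K + K * t)) ^ 2 * J (K * (t + 1)) K (P / p + 1)) : ℕ) : ℝ) := by
      rw [hs]
      exact_mod_cast hred
    linarith

theorem vm_all (K : ℕ) (hK : 2 ≤ K) (t : ℕ) (ht : 1 ≤ t) (ht9 : t ≤ 9 * K) :
    ∀ P : ℕ, 1 ≤ P → (J (K * t) K P : ℝ) ≤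
      ((K + 1 : ℕ) : ℝ) ^ ee K t * (P : ℝ) ^ (2 * ((K * t : ℕ) : ℝ) - Del K t) := by
  induction t, ht using Nat.le_induction with
  | base =>
    intro P hP
    have hP1 : (1 : ℝ) ≤ P := by exact_mod_cast hP
    rw [mul_one]
    have h1 : (J K K P : ℝ) ≤ (K.factorial : ℝ) * (P : ℝ) ^ K := by exact_mod_cast J_base K P
    refine h1.trans (mul_le_mul ?_ ?_ (by positivity) (by positivity))
    · have h2 : K.factorial ≤ (K + 1) ^ ee K 1 := by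
        calc K.factorial ≤ K ^ K := Nat.factorial_le_pow K
          _ ≤ (K + 1) ^ K := Nat.pow_le_pow_left (by omega) K
          _ ≤ (K + 1) ^ ee K 1 := by
              refine Nat.pow_le_pow_right (by omega) ?_
              unfold ee
              nlinarith
      exact_mod_cast h2
    · rw [← Real.rpow_natCast]
      refine Real.rpow_le_rpow_of_exponent_le hP1 ?_
      have h2 := Del_le' K 1
      have hK1 : (2 : ℝ) ≤ K := by exact_mod_cast hK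
      push_cast at h2
      linarith
  | succ t ht ih => exact vm_step K t hK ht ht9 (ih (by omega))

theorem vmvt_all : ∃ C : ℝ, 0 < C ∧ ∀ K : ℕ, 2 ≤ K → ∀ t : ℕ, 1 ≤ t → t ≤ 9 * K → ∀ P : ℕ, 1 ≤ P →
    (J (K * t) K P : ℝ) ≤
      Real.exp (C * (K : ℝ) ^ 3 * Real.log (K + 1)) * (P : ℝ) ^ (2 * ((K * t : ℕ) : ℝ) - Del K t) := by
  refine ⟨234, by norm_num, fun K hK t ht ht9 P hP => ?_⟩
  refine (vm_all K hK t ht ht9 P hP).trans (mul_le_mul_of_nonneg_right ?_ (by positivity))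
  have h1 : ee K t ≤ 234 * K ^ 3 := by
    unfold ee
    nlinarith [Nat.mul_le_mul_left (25 * K ^ 2) ht9]
  have h2 : (0 : ℝ) < (K : ℝ) + 1 := by positivity
  calc ((K + 1 : ℕ) : ℝ) ^ ee K t ≤ ((K + 1 : ℕ) : ℝ) ^ (234 * K ^ 3) := by
        refine pow_le_pow_right₀ ?_ h1
        exact_mod_cast Nat.le_add_left 1 K
    _ = Real.exp (234 * (K : ℝ) ^ 3 * Real.log (K + 1)) := by
        rw [Nat.cast_add, Nat.cast_one, ← Real.exp_log h2, ← Real.exp_nat_mul, Real.exp_log h2]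
        push_cast
        rfl

/-- The mean value theorem in the form used in part N (`t = 9 K`, `s = 9 K^2`). -/
theorem vmvt : ∃ C : ℝ, 0 < C ∧ ∀ K : ℕ, 2 ≤ K → ∀ P : ℕ, 1 ≤ P →
    (J (9 * K ^ 2) K P : ℝ) ≤ Real.exp (C * (K : ℝ) ^ 3 * Real.log (K + 1)) *
      (P : ℝ) ^ (18 * (K : ℝ) ^ 2 - (1 - Real.exp (-9)) * ((K : ℝ) * (K + 1) / 2)) := by
  obtain ⟨C, hC, h⟩ := vmvt_all
  refine ⟨C, hC, fun K hK P hP => ?_⟩
  have h1 := h K hK (9 * K) (by omega) le_rfl P hP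
  have h2 : K * (9 * K) = 9 * K ^ 2 := by ring
  rw [h2] at h1
  refine h1.trans (mul_le_mul_of_nonneg_left ?_ (by positivity))
  refine Real.rpow_le_rpow_of_exponent_le (by exact_mod_cast hP) ?_
  have h3 := Del_9K K (by omega)
  push_cast
  linarith

end MP14ee70.TY.V
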